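import Pool.Agent.Lib.LThin.GDefs

/-!
# Start of the induction: `XG 0 / <<r_0 i.succ>>` is free

`Y₀ = PQ (Etop h) (Bot.nil Γ) 0`, `q = qQ (Etop h) (Bot.nil Γ) 0`, `x v = xg Γ 0 0 v` (every `d : Fin 1` is `0`, `Fin.last 0 = 0`; `XG Γ 0` has no relations, `xg_univ`). Homomorphisms `Y₀ →* Y` are the functions `f : V → Y` with `TT Γ f (h.l i.succ) = 1`.
PROOF. `J = V ⊕ Bool`, `FF = FreeGroup J`. `γ v = 1` if `v = h.b (h.κ v)`, `γ v = of (inl v)` otherwise; `u i = of (inr i)`; `ζ` the solution of `he` for `Y = FF`, `γ`, `u`. `θ : Y₀ →* FF`, `θ (q (x v)) = ζ (κ v) * γ v` (`xg_univ`, `qQ_lift`, `map_TT`).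
`η : FF →* Y₀`, `inl v ↦ (q (x (b (κ v))))⁻¹ * q (x v)`, `inr false ↦ q (x (b 0))`, `inr true ↦ q (x (b 1))`. Let `γ' = η ∘ γ` (`γ' v = (q (x (b (κ v))))⁻¹ * q (x v)` in both cases), `u' = η ∘ u`. `ζ' k = q (x (b k))` satisfies
`ζ' (κ v) * γ' v = q (x v)`, so it is a solution of `he` for `Y₀`, `γ'`, `u'` (`qQ_W`, `map_TT`), and `η ∘ ζ` is one, too (`map_TT`). By uniqueness `η (ζ k) = q (x (b k))`, so `η (θ (q (x v))) = q (x v)`, and `η ∘ θ = id` (`xg_ext` or `xg_gen`, `qQ_surj`).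
-/

set_option autoImplicit false

open scoped Classical

namespace Pool.Agent.LThin

open Pool.Agent.LOTI Pool.Agent.LTree

variable {V E : Type} [Fintype V] [Fintype E]

theorem baseA {Γ : LOT V E} {c : ℕ} (h : GPt Γ (Fin (c + 2)) (Fin (c + 1))) (he : Elim h) :
    ∃ (J : Type) (θ : PQ (Etop h) (Bot.nil Γ) 0 →* FreeGroup J), Function.Injective θ := by
  set q : XG Γ 0 →* PQ (Etop h) (Bot.nil Γ) 0 := qQ (Etop h) (Bot.nil Γ) 0 with hq
  let x : V → XG Γ 0 := fun v => xg Γ 0 (Fin.last 0) v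
  let γ : V → FreeGroup (V ⊕ Bool) := fun v =>
    if v = h.b (h.κ v) then 1 else FreeGroup.of (Sum.inl v)
  let u : Bool → FreeGroup (V ⊕ Bool) := fun i => FreeGroup.of (Sum.inr i)
  obtain ⟨hζ0, hζ1, hζ2⟩ := (he (FreeGroup (V ⊕ Bool)) γ u).choose_spec.1
  -- the homomorphism to the free group
  set z := (he (FreeGroup (V ⊕ Bool)) γ u).choose with hz
  obtain ⟨θ₀, hθ₀⟩ := xg_univ Γ 0 (fun (_ : Fin 1) v => z (h.κ v) * γ v) (fun _ d => d.elim0)
  obtain ⟨θ, hθ⟩ := qQ_lift (Etop h) (Bot.nil Γ) 0 θ₀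
    (by
      rintro _ ⟨i, rfl⟩
      unfold rJ
      rw [map_TT]
      have : (fun v => θ₀ (xg Γ 0 (Fin.last 0) v)) = fun v => z (h.κ v) * γ v := by
        funext v
        exact hθ₀ _ v
      rw [this]
      exact hζ2 i)
    (fun w hw => absurd hw (Set.notMem_empty w))
  -- the homomorphism back
  let η : FreeGroup (V ⊕ Bool) →* PQ (Etop h) (Bot.nil Γ) 0 := FreeGroup.lift
    (Sum.elim (fun v => (q (x (h.b (h.κ v))))⁻¹ * q (x v))
      (fun i => q (x (h.b (cond i 1 0)))))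
  have hη1 : ∀ v, η (γ v) = (q (x (h.b (h.κ v))))⁻¹ * q (x v) := by
    intro v
    by_cases hv : v = h.b (h.κ v)
    · have h1 : γ v = 1 := if_pos hv
      rw [h1, map_one, ← hv, inv_mul_cancel]
    · have h1 : γ v = FreeGroup.of (Sum.inl v) := if_neg hv
      rw [h1]
      exact FreeGroup.lift_apply_of
  have hη2 : ∀ i, η (u i) = q (x (h.b (cond i 1 0))) := fun i => FreeGroup.lift_apply_of
  have huniq := (he (PQ (Etop h) (Bot.nil Γ) 0) (fun v => η (γ v)) (fun i => η (u i))).unique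
    (y₁ := fun k => q (x (h.b k))) (y₂ := fun k => η (z k))
    ⟨(hη2 false).symm, (hη2 true).symm, by
      intro i
      have h1 : (fun v => q (x (h.b (h.κ v))) * η (γ v)) = fun v => q (x v) := by
        funext v
        rw [hη1, mul_inv_cancel_left]
      have h2 : q (TT Γ x (h.l i.succ)) = TT Γ (fun v => q (x v)) (h.l i.succ) :=
        map_TT Γ q x _
      have h3 : q (TT Γ x (h.l i.succ)) = 1 :=
        qQ_W (Etop h) (Bot.nil Γ) 0 _ (Or.inl ⟨i, rfl⟩)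
      show TT Γ (fun v => q (x (h.b (h.κ v))) * η (γ v)) (h.l i.succ) = 1
      rw [h1, ← h2, h3]⟩
    ⟨congrArg η hζ0, congrArg η hζ1, by
      intro i
      have h1 : (fun v => η (z (h.κ v)) * η (γ v)) = fun v => η (z (h.κ v) * γ v) := by
        funext v
        rw [map_mul]
      show TT Γ (fun v => η (z (h.κ v)) * η (γ v)) (h.l i.succ) = 1
      rw [h1, ← map_TT Γ η (fun v => z (h.κ v) * γ v), hζ2 i, map_one]⟩
  have hk : ∀ k, η (z k) = q (x (h.b k)) := fun k => (congrFun huniq k).symm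
  refine ⟨V ⊕ Bool, θ, Function.LeftInverse.injective (g := η) ?_⟩
  intro y
  obtain ⟨p, rfl⟩ := qQ_surj (Etop h) (Bot.nil Γ) 0 y
  refine xg_ext Γ 0 (F := (η.comp θ).comp q) (F' := q) ?_ p
  intro d v
  have hd : d = Fin.last 0 := Subsingleton.elim (α := Fin 1) _ _
  subst hd
  show η (θ (qQ (Etop h) (Bot.nil Γ) 0 (xg Γ 0 (Fin.last 0) v))) = _
  rw [hθ, hθ₀, map_mul, hk, hη1, mul_inv_cancel_left]

end Pool.Agent.LThin
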