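import Pool.Agent.Lib.LThin.BaseA

/-!
# Start of the induction: `XG 0 / <<r_0 i.succ, s_0 i.succ>>` is free

`Ebot h'` are the elements `s_n i.succ = mu Γ n (rJ h' n i.succ)` of the first level.
PROOF of `baseB`. `Y₀ = PQ (Etop h) (Bot.nil Γ) 0`, `q : XG Γ 0 →* Y₀`, `Y₁ = PQ (Etop h) (Ebot h') 0`, `q₁ : XG Γ 0 →* Y₁`, `x v = xg Γ 0 0 v` (every `d : Fin 1` is `0`). `ρ : Y₀ →* Y₁`, `ρ (q p) = q₁ p` (`qQ_lift`). We construct `θ₂ : Y₁ →* Y₀` with `ρ ∘ θ₂ = id`;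
then `θ₂` is injective, and `θ = θ₀ ∘ θ₂` with `θ₀` from `baseA`.
Let `y v = (q (x v))⁻¹ : V → Y₀`, `ψ = II Γ.rev y : FreeGroup E →* Y₀` (`ψ (of e) = q (x (lab e)) * (q (x (term e)))⁻¹`), `γ v = ψ (h'.g v)`, `u false = y (h'.b 0) * (γ (h'.b 0))⁻¹`, `u true = y (h'.b 1) * (γ (h'.b 1))⁻¹`, `ζ` the solution of `he'` for `Y = Y₀`, `γ`, `u`.
`θ₂ (q₁ (x v)) = w v`, `w v = (ζ (h'.κ v) * γ v)⁻¹`, by `xg_univ Γ 0` (no relations) and `qQ_lift`: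
(1) the elements of `Etop h`: `w (term e) * (w (lab e))⁻¹ = (γ (term e))⁻¹ * γ (lab e)` since `h'.κ (term e) = h'.κ (lab e)` (`h'.hκ`, `Γ.rev.init = Γ.term`), and `γ (term e) = γ (lab e) * ψ (of e)` by `h'.pot` for `ψ` (`ψ (h'.l i) = 1` by `h'.closed`), so
    `w (term e) * (w (lab e))⁻¹ = (ψ (of e))⁻¹ = q (x (term e)) * (q (x (lab e)))⁻¹`: `TT Γ w = TT Γ (q ∘ x)` on `FreeGroup E`, and `TT Γ (q ∘ x) (h.l i.succ) = q (rJ h 0 i.succ) = 1`.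
(2) the elements of `Ebot h'`: `mu Γ 0 (rJ h' 0 i.succ) = TT Γ.rev (fun v => (x v)⁻¹) (h'.l i.succ)` (`map_TT`, `mu_xg`), whose image is `TT Γ.rev (fun v => ζ (h'.κ v) * γ v) (h'.l i.succ) = 1`.
`ρ ∘ θ₂ = id`: let `ζ₁ k = (q₁ (x (h'.b k)))⁻¹ * (ρ (γ (h'.b k)))⁻¹`. `ρ (γ v) = II Γ.rev (fun v => (q₁ (x v))⁻¹) (h'.g v)` (`map_II`), so `h'.const` gives `(q₁ (x v))⁻¹ = ζ₁ (h'.κ v) * ρ (γ v)` (`h'.hb`). So `ζ₁` is the solution of `he'` for `Y₁`, `ρ ∘ γ`,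
`ρ ∘ u` (the equations: the value is `q₁ (mu Γ 0 (rJ h' 0 i.succ)) = 1`, `qQ_W`), and `ρ ∘ ζ` is one, too. So `ρ (ζ k) = ζ₁ k` and `ρ (θ₂ (q₁ (x v))) = (ζ₁ (h'.κ v) * ρ (γ v))⁻¹ = q₁ (x v)`.
-/

set_option autoImplicit false

open scoped Classical

namespace Pool.Agent.LThin

open Pool.Agent.LOTI Pool.Agent.LTree

variable {V E : Type} [Fintype V] [Fintype E]

/-- the eliminating relators of the first level -/
noncomputable def Ebot {Γ : LOT V E} {c : ℕ} (h' : GPt Γ.rev (Fin (c + 2)) (Fin (c + 1))) :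
    Bot Γ where
  W n := Set.range fun i : Fin c => mu Γ n (rJ h' n i.succ)
  up n := by
    rw [← Set.range_comp]
    congr 1
    funext i
    have h1 := nu_jj Γ n (mu Γ n (rJ h' n i.succ))
    rw [nu_mu, ss_rJ] at h1
    have h2 := mu_nu Γ (n + 1) (jj Γ n (mu Γ n (rJ h' n i.succ)))
    rw [h1] at h2
    exact h2.symm
  dn n := by
    rintro _ ⟨i, rfl⟩
    have h1 := nu_ss Γ n (mu Γ n (rJ h' n i.succ))
    rw [nu_mu, jj_rJ] at h1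
    have h2 := mu_nu Γ (n + 1) (ss Γ n (mu Γ n (rJ h' n i.succ)))
    rw [h1, map_one] at h2
    exact h2.symm

theorem baseB {Γ : LOT V E} {c c' : ℕ} (h : GPt Γ (Fin (c + 2)) (Fin (c + 1))) (he : Elim h)
    (h' : GPt Γ.rev (Fin (c' + 2)) (Fin (c' + 1))) (he' : Elim h') :
    ∃ (J : Type) (θ : PQ (Etop h) (Ebot h') 0 →* FreeGroup J), Function.Injective θ := by
  obtain ⟨J, θ₀, hθ₀⟩ := baseA h he
  let Y₀ : Type := PQ (Etop h) (Bot.nil Γ) 0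
  let Y₁ : Type := PQ (Etop h) (Ebot h') 0
  let q : XG Γ 0 →* Y₀ := qQ (Etop h) (Bot.nil Γ) 0
  let q₁ : XG Γ 0 →* Y₁ := qQ (Etop h) (Ebot h') 0
  let x : V → XG Γ 0 := fun v => xg Γ 0 (Fin.last 0) v
  have hx : ∀ (d : Fin (0 + 1)) (v : V), xg Γ 0 d v = x v := by
    intro d v
    have : d = Fin.last 0 := Fin.ext (by
      have h1 := d.isLt
      rw [Fin.val_last]
      omega)
    rw [this]
  obtain ⟨ρ, hρ⟩ : ∃ ρ : Y₀ →* Y₁, ∀ p, ρ (q p) = q₁ p :=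
    qQ_lift (Etop h) (Bot.nil Γ) 0 q₁
      (fun w hw => qQ_W (Etop h) (Ebot h') 0 w (Or.inl hw))
      (fun w hw => absurd hw (Set.notMem_empty w))
  let y : V → Y₀ := fun v => (q (x v))⁻¹
  let ψ : FreeGroup E →* Y₀ := II Γ.rev y
  let γ : V → Y₀ := fun v => ψ (h'.g v)
  let u : Bool → Y₀ := fun t => if t then y (h'.b 1) * (γ (h'.b 1))⁻¹
    else y (h'.b 0) * (γ (h'.b 0))⁻¹
  obtain ⟨ζ, ⟨hζ0, hζ1, hζ⟩, -⟩ := he' Y₀ γ u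
  have hψ : ∀ e, ψ (FreeGroup.of e) = q (x (Γ.lab e)) * (q (x (Γ.term e)))⁻¹ := by
    intro e
    show II Γ.rev y (FreeGroup.of e) = _
    simp only [II, FreeGroup.lift_apply_of]
    show ((q (x (Γ.lab e)))⁻¹)⁻¹ * (q (x (Γ.term e)))⁻¹ = _
    rw [inv_inv]
  have hpot : ∀ e, γ (Γ.term e) = γ (Γ.lab e) * ψ (FreeGroup.of e) := fun e =>
    h'.pot Y₀ ψ (fun i => h'.closed Y₀ y i) e
  let w : V → Y₀ := fun v => (ζ (h'.κ v) * γ v)⁻¹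
  obtain ⟨f₂, hf₂⟩ : ∃ f₂ : XG Γ 0 →* Y₀, ∀ (d : Fin (0 + 1)) v, f₂ (xg Γ 0 d v) = w v :=
    xg_univ Γ 0 (fun _ v => w v) (fun e d => d.elim0)
  have hmu : ∀ (Y : Type) [Group Y] (F : XG Γ 0 →* Y) (i : Fin c'),
      F (mu Γ 0 (rJ h' 0 i.succ)) = TT Γ.rev (fun v => (F (x v))⁻¹) (h'.l i.succ) := by
    intro Y _ F i
    unfold rJ
    rw [map_TT, map_TT]
    have h1 : (fun v => F (mu Γ 0 (xg Γ.rev 0 (Fin.last 0) v))) = fun v => (F (x v))⁻¹ := by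
      funext v
      rw [mu_xg, map_inv, hx]
    rw [h1]
  have hTT : TT Γ w = TT Γ (fun v => q (x v)) := by
    apply FreeGroup.ext_hom
    intro e
    simp only [TT, FreeGroup.lift_apply_of]
    have hk : h'.κ (Γ.lab e) = h'.κ (Γ.term e) := h'.hκ e
    show (ζ (h'.κ (Γ.term e)) * γ (Γ.term e))⁻¹ * ((ζ (h'.κ (Γ.lab e)) * γ (Γ.lab e))⁻¹)⁻¹ = _
    rw [inv_inv, ← hk, mul_inv_rev, hpot e, hψ e]
    group
  have hA : ∀ p ∈ (Etop h).W 0, f₂ p = 1 := by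
    rintro _ ⟨i, rfl⟩
    show f₂ (rJ h 0 i.succ) = 1
    have h1 : f₂ (rJ h 0 i.succ) = TT Γ w (h.l i.succ) := by
      unfold rJ
      rw [map_TT]
      have h2 : (fun v => f₂ (xg Γ 0 (Fin.last 0) v)) = w := by
        funext v
        rw [hf₂]
      rw [h2]
    have h3 : q (rJ h 0 i.succ) = TT Γ (fun v => q (x v)) (h.l i.succ) := by
      unfold rJ
      rw [map_TT]
    rw [h1, hTT, ← h3]
    exact qQ_W (Etop h) (Bot.nil Γ) 0 _ (Or.inl ⟨i, rfl⟩)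
  have hB : ∀ p ∈ (Ebot h').W 0, f₂ p = 1 := by
    rintro _ ⟨i, rfl⟩
    show f₂ (mu Γ 0 (rJ h' 0 i.succ)) = 1
    rw [hmu Y₀ f₂ i]
    have h1 : (fun v => (f₂ (x v))⁻¹) = fun v => ζ (h'.κ v) * γ v := by
      funext v
      rw [hf₂]
      show ((ζ (h'.κ v) * γ v)⁻¹)⁻¹ = _
      rw [inv_inv]
    rw [h1]
    exact hζ i
  obtain ⟨θ₂, hθ₂⟩ : ∃ θ₂ : Y₁ →* Y₀, ∀ p, θ₂ (q₁ p) = f₂ p :=
    qQ_lift (Etop h) (Ebot h') 0 f₂ hA hB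
  -- the second solution
  let ζ₁ : Fin (c' + 2) → Y₁ := fun k => (q₁ (x (h'.b k)))⁻¹ * (ρ (γ (h'.b k)))⁻¹
  have hργ : ∀ v, ρ (γ v) = II Γ.rev (fun v => (q₁ (x v))⁻¹) (h'.g v) := by
    intro v
    show ρ (II Γ.rev y (h'.g v)) = _
    rw [map_II]
    have h1 : (fun v => ρ (y v)) = fun v => (q₁ (x v))⁻¹ := by
      funext v
      show ρ (q (x v))⁻¹ = _
      rw [map_inv, hρ]
    rw [h1]
  have hconst : ∀ v, (q₁ (x v))⁻¹ = ζ₁ (h'.κ v) * ρ (γ v) := by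
    intro v
    have h1 := h'.const Y₁ (fun v => (q₁ (x v))⁻¹) v (h'.b (h'.κ v)) (h'.hb _).symm
    rw [← hργ, ← hργ] at h1
    show _ = (q₁ (x (h'.b (h'.κ v))))⁻¹ * (ρ (γ (h'.b (h'.κ v))))⁻¹ * ρ (γ v)
    rw [← h1, inv_mul_cancel_right]
  have huniq : (fun k => ρ (ζ k)) = ζ₁ := by
    refine (he' Y₁ (fun v => ρ (γ v)) (fun t => ρ (u t))).unique ⟨?_, ?_, ?_⟩ ⟨?_, ?_, ?_⟩
    · show ρ (ζ 0) = ρ (u false)
      rw [hζ0]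
    · show ρ (ζ 1) = ρ (u true)
      rw [hζ1]
    · intro i
      have h1 : (fun v => ρ (ζ (h'.κ v)) * ρ (γ v)) = fun v => ρ (ζ (h'.κ v) * γ v) := by
        funext v
        rw [map_mul]
      show TT Γ.rev (fun v => ρ (ζ (h'.κ v)) * ρ (γ v)) (h'.l i.succ) = 1
      rw [h1, ← map_TT, hζ i, map_one]
    · show (q₁ (x (h'.b 0)))⁻¹ * (ρ (γ (h'.b 0)))⁻¹ = ρ ((q (x (h'.b 0)))⁻¹ * (γ (h'.b 0))⁻¹)
      rw [map_mul, map_inv, map_inv, hρ]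
    · show (q₁ (x (h'.b 1)))⁻¹ * (ρ (γ (h'.b 1)))⁻¹ = ρ ((q (x (h'.b 1)))⁻¹ * (γ (h'.b 1))⁻¹)
      rw [map_mul, map_inv, map_inv, hρ]
    · intro i
      have h1 : (fun v => ζ₁ (h'.κ v) * ρ (γ v)) = fun v => (q₁ (x v))⁻¹ := by
        funext v
        exact (hconst v).symm
      rw [h1, ← hmu Y₁ q₁ i]
      exact qQ_W (Etop h) (Ebot h') 0 _ (Or.inr ⟨i, rfl⟩)
  have hid : ∀ p, ρ (θ₂ (q₁ p)) = q₁ p := by
    intro p
    have h1 := xg_ext Γ 0 (F := (ρ.comp θ₂).comp q₁) (F' := q₁) (fun d v => by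
      rw [MonoidHom.comp_apply, MonoidHom.comp_apply, hθ₂, hf₂, hx]
      show ρ (ζ (h'.κ v) * γ v)⁻¹ = q₁ (x v)
      have h2 : ρ (ζ (h'.κ v)) = ζ₁ (h'.κ v) := congrFun huniq (h'.κ v)
      rw [map_inv, map_mul, h2, ← hconst v, inv_inv]) p
    exact h1
  have hinj : Function.Injective θ₂ := by
    have h1 : ∀ z, ρ (θ₂ z) = z := by
      intro z
      obtain ⟨p, rfl⟩ := qQ_surj (Etop h) (Ebot h') 0 z
      exact hid p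
    intro a b hab
    rw [← h1 a, hab, h1 b]
  exact ⟨J, θ₀.comp θ₂, hθ₀.comp hinj⟩

end Pool.Agent.LThin
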