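import Pool.Agent.Lib.LTree.Step
import Pool.Agent.Lib.LTree.Cay
import Pool.Agent.Lib.LOTI.LIF

/-!
# Subgroups of free groups

PROOFS. `emb_LI`: `LI_free`, `LI.of_injective`. `emb_tree`: `LTree.cay (FreeGroup.of : J → FreeGroup J)` (`gen`: `FreeGroup.closure_range_of`, `univ`: `FreeGroup.lift`) is a `GTree (FreeGroup J)` `T₀` with `T₀.Has ⊥` on whose vertices the group acts
freely (see `x0_hyp` in LTree/XBas). `T` has the same vertices, edges, `o`, `t`, `conn`, `pot` and the action of `P` through `θ` (`MulAction.compHom _ θ`); `g • e = e` iff `θ g = 1` iff `g = 1`.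
-/

set_option autoImplicit false

open scoped Classical

namespace Pool.Agent.LThin

open Pool.Agent.LOTI Pool.Agent.LTree

theorem emb_LI {P J : Type} [Group P] (θ : P →* FreeGroup J) (hθ : Function.Injective θ) :
    LI P := LI.of_injective θ hθ (LI_free J)

theorem emb_tree {P J : Type} [Group P] (θ : P →* FreeGroup J) (hθ : Function.Injective θ) :
    ∃ T : GTree P, T.Has ⊥ ∧ ∀ (v : T.V) (g : P), g • v = v → g = 1 := by
  obtain ⟨T₀, hT, hv⟩ := cay (A := FreeGroup J) (FreeGroup.of : J → FreeGroup J)
    (by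
      intro H hH
      rw [eq_top_iff, ← FreeGroup.closure_range_of, Subgroup.closure_le]
      rintro _ ⟨i, rfl⟩
      exact hH i)
    (by
      intro Y _ u
      exact ⟨FreeGroup.lift u, fun i => FreeGroup.lift_apply_of⟩)
  refine ⟨{ V := T₀.V
            E := T₀.E
            actV := MulAction.compHom T₀.V θ
            actE := MulAction.compHom T₀.E θ
            ne := T₀.ne
            o := T₀.o
            t := T₀.t
            o_smul := fun g e => T₀.o_smul (θ g) e
            t_smul := fun g e => T₀.t_smul (θ g) e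
            conn := T₀.conn
            pot := T₀.pot }, ⟨?_, ?_⟩, ?_⟩
  · intro g e
    have h1 : (θ g) • e = e ↔ θ g ∈ (⊥ : Subgroup (FreeGroup J)) := hT.1 (θ g) e
    rw [Subgroup.mem_bot] at h1 ⊢
    exact h1.trans (map_eq_one_iff θ hθ)
  · intro g v hg
    have h1 : (θ g) • v = v := hT.2 (θ g) v (by
      rw [Subgroup.mem_bot] at hg ⊢
      rw [hg, map_one])
    exact h1
  · intro v g hg
    exact (map_eq_one_iff θ hθ).1 (hv v (θ g) hg)

end Pool.Agent.LThin
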