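import Pool.Agent.Lib.LThin.GDefs
import Pool.Agent.Lib.LOTI.Forest

/-!
# Components and cycles of the initial graph of a LOT

PROOF. As `LTree.exists_two` (module LTree/Comb, please copy its private lemmas `comb_mono`, `comb_edge`, `comb_max`): `S : Finset E` of maximal cardinality with `S.card + Nat.card (Quotient (cst Γ.lab Γ.init S)) ≤ Fintype.card V`; all edges `e` have
`(cst Γ.lab Γ.init S) (lab e) (init e)`. `J = Quotient (cst Γ.lab Γ.init S)`, `κ v = ⟦v⟧`, `b = Quotient.out`, `ι = {e // e ∉ S}`.
`g : V → FreeGroup E`: let `forest Γ.lab Γ.init S hS u` with `X = FreeGroup {e // e ∈ S}`, `u e = of ⟨e, _⟩` if `e ∈ S`, `1` otherwise, give `g₀ : V → FreeGroup {e // e ∈ S}`, `g₀ (init e) = g₀ (lab e) * u e` for `e ∈ S`; `g v = FreeGroup.map Subtype.val (g₀ v)`, so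
`g (init e) = g (lab e) * of e` for `e ∈ S`, and `cyc (g v) e = 0` for `e ∉ S` (`FreeGroup.induction_on` for the element `g₀ v`).
`l e = (g (lab e))⁻¹ * g (init e) * (of e)⁻¹` for `e ∉ S`. `pot`: clear for `e ∈ S`; for `e ∉ S`: `f (l e) = 1`. `const`: `v ↦ f v * (II Γ f (g v))⁻¹` has the same value at `lab e`, `init e` for `e ∈ S`, so it is constant on the classes of `S`
(`hcst` in `exists_two`). `closed`: `const` for `lab e`, `init e` (see `exists_two`). Linear independence: `cyc (l e) e' = - (if e = e' then 1 else 0)` for `e, e' ∉ S` (`cyc` is additive).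
-/

set_option autoImplicit false

open scoped Classical

namespace Pool.Agent.LThin

open Pool.Agent.LOTI Pool.Agent.LTree

variable {V E : Type} [Fintype V] [Fintype E]

private theorem gcomb_mono {a b : E → V} {S T : Finset E} (hST : S ⊆ T) {v w : V}
    (h : (cst a b S) v w) : (cst a b T) v w := by
  have h1 : ∀ x y, (∃ e ∈ S, x = a e ∧ y = b e) → ∃ e ∈ T, x = a e ∧ y = b e := by
    rintro x y ⟨e, he, hx, hy⟩
    exact ⟨e, hST he, hx, hy⟩
  exact Relation.EqvGen.mono h1 _ _ h

private theorem gcomb_edge (a b : E → V) {S : Finset E} {e : E} (he : e ∈ S) :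
    (cst a b S) (a e) (b e) :=
  Relation.EqvGen.rel _ _ ⟨e, he, rfl, rfl⟩

/-- a set of edges of maximal cardinality without cycles spans all components -/
private theorem gcomb_max (a b : E → V) : ∃ S : Finset E,
    S.card + Nat.card (Quotient (cst a b S)) ≤ Fintype.card V ∧
      ∀ e, (cst a b S) (a e) (b e) := by
  have hne : (Finset.univ.filter fun S : Finset E =>
      S.card + Nat.card (Quotient (cst a b S)) ≤ Fintype.card V).Nonempty := by
    refine ⟨∅, ?_⟩
    rw [Finset.mem_filter]
    refine ⟨Finset.mem_univ _, ?_⟩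
    rw [Finset.card_empty, zero_add, ← Nat.card_eq_fintype_card]
    exact Nat.card_le_card_of_surjective (fun v => Quotient.mk (cst a b ∅) v)
      Quotient.mk_surjective
  obtain ⟨S, hS, hmax⟩ := Finset.exists_max_image _ Finset.card hne
  rw [Finset.mem_filter] at hS
  refine ⟨S, hS.2, fun e => ?_⟩
  by_cases he : e ∈ S
  · exact gcomb_edge a b he
  by_contra hcon
  have hfin : Finite (Quotient (cst a b S)) := Quotient.finite _
  have hfin' : Finite (Quotient (cst a b (insert e S))) := Quotient.finite _
  let f : Quotient (cst a b S) → Quotient (cst a b (insert e S)) :=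
    Quotient.map id (fun _ _ h => gcomb_mono (Finset.subset_insert e S) h)
  have hsurj : Function.Surjective f := by
    intro q
    induction q using Quotient.inductionOn with
    | h v => exact ⟨Quotient.mk _ v, rfl⟩
  have hninj : ¬ Function.Injective f := by
    intro hinj
    have h1 : f (Quotient.mk _ (a e)) = f (Quotient.mk _ (b e)) :=
      Quotient.sound (gcomb_edge a b (Finset.mem_insert_self e S))
    exact hcon (Quotient.exact (hinj h1))
  have hlt : Nat.card (Quotient (cst a b (insert e S))) < Nat.card (Quotient (cst a b S)) := by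
    refine lt_of_le_of_ne (Nat.card_le_card_of_surjective f hsurj) ?_
    intro heq
    apply hninj
    have hbij : Function.Bijective f :=
      (Nat.bijective_iff_surjective_and_card f).2 ⟨hsurj, heq.symm⟩
    exact hbij.1
  have h2 : insert e S ∈ Finset.univ.filter fun S : Finset E =>
      S.card + Nat.card (Quotient (cst a b S)) ≤ Fintype.card V := by
    rw [Finset.mem_filter, Finset.card_insert_of_notMem he]
    exact ⟨Finset.mem_univ _, by have := hS.2; omega⟩
  have h3 := hmax _ h2
  rw [Finset.card_insert_of_notMem he] at h3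
  omega

private theorem cyc_mul (x y : FreeGroup E) (e : E) : cyc (x * y) e = cyc x e + cyc y e := by
  unfold cyc
  rw [map_mul]
  rfl

private theorem cyc_inv (x : FreeGroup E) (e : E) : cyc x⁻¹ e = - cyc x e := by
  unfold cyc
  rw [map_inv]
  rfl

private theorem cyc_of (e' e : E) : cyc (FreeGroup.of e') e = if e' = e then 1 else 0 := by
  unfold cyc
  rw [FreeGroup.lift_apply_of]
  rfl

private theorem cyc_map (S : Finset E) (x : FreeGroup {e // e ∈ S}) (e : E) (he : e ∉ S) :
    cyc (FreeGroup.map Subtype.val x) e = 0 := by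
  have h : (FreeGroup.lift (fun e' : E => Multiplicative.ofAdd (if e' = e then (1 : ℚ) else 0))).comp
      (FreeGroup.map (Subtype.val : {e // e ∈ S} → E)) = 1 := by
    apply FreeGroup.ext_hom
    intro e'
    have hne : (e' : E) ≠ e := fun h => he (h ▸ e'.2)
    rw [MonoidHom.comp_apply, FreeGroup.map.of, FreeGroup.lift_apply_of, if_neg hne]
    rfl
  have h2 := DFunLike.congr_fun h x
  rw [MonoidHom.comp_apply] at h2
  unfold cyc
  rw [h2]
  rfl

theorem exists_gpt (Γ : LOT V E) : ∃ (J ι : Type) (_ : Fintype J) (_ : Fintype ι)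
    (h : GPt Γ J ι), LinearIndependent ℚ fun i => cyc (h.l i) := by
  obtain ⟨S, hS, hall⟩ := gcomb_max Γ.lab Γ.init
  obtain ⟨g₀, hg₀⟩ := forest Γ.lab Γ.init S hS
    (fun e => if h : e ∈ S then FreeGroup.of (⟨e, h⟩ : {e // e ∈ S}) else 1)
  have hg : ∀ e ∈ S, FreeGroup.map Subtype.val (g₀ (Γ.init e)) =
      FreeGroup.map Subtype.val (g₀ (Γ.lab e)) * FreeGroup.of e := by
    intro e he
    rw [hg₀ e he, map_mul, dif_pos he, FreeGroup.map.of]
  have hcst : ∀ (X : Type) [Group X] (f : V → X) (v w : V), (cst Γ.lab Γ.init S) v w →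
      f v * (II Γ f (FreeGroup.map Subtype.val (g₀ v)))⁻¹ =
        f w * (II Γ f (FreeGroup.map Subtype.val (g₀ w)))⁻¹ := by
    intro X _ f v w hvw
    have h' : Relation.EqvGen (fun v w => ∃ e ∈ S, v = Γ.lab e ∧ w = Γ.init e) v w := hvw
    clear hvw
    induction h' with
    | rel x y hxy =>
      obtain ⟨e, he, rfl, rfl⟩ := hxy
      have hof : II Γ f (FreeGroup.of e) = (f (Γ.lab e))⁻¹ * f (Γ.init e) := by
        simp [II]
      rw [hg e he, map_mul, hof]
      group
    | refl x => rfl
    | symm x y _ ih => exact ih.symm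
    | trans x y z _ _ ih1 ih2 => exact ih1.trans ih2
  let h : GPt Γ (Quotient (cst Γ.lab Γ.init S)) {e // e ∉ S} :=
    { κ := fun v => Quotient.mk _ v
      b := Quotient.out
      hb := fun i => Quotient.out_eq i
      g := fun v => FreeGroup.map Subtype.val (g₀ v)
      l := fun e => (FreeGroup.map Subtype.val (g₀ (Γ.lab e.1)))⁻¹ *
        FreeGroup.map Subtype.val (g₀ (Γ.init e.1)) * (FreeGroup.of e.1)⁻¹
      hκ := fun e => Quotient.sound (hall e)
      pot := by
        intro X _ f hf e
        by_cases he : e ∈ S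
        · rw [hg e he, map_mul]
        · have h1 := hf ⟨e, he⟩
          rw [map_mul, map_mul, map_inv, map_inv, mul_inv_eq_one] at h1
          rw [← h1]
          group
      const := fun X _ f v w hvw => hcst X f v w (Quotient.exact hvw)
      closed := by
        intro X _ f i
        have h1 := hcst X f _ _ (hall i.1)
        have hof : II Γ f (FreeGroup.of i.1) = (f (Γ.lab i.1))⁻¹ * f (Γ.init i.1) := by
          simp [II]
        rw [map_mul, map_mul, map_inv, map_inv, hof, mul_inv_eq_one]
        have h2 : (II Γ f (FreeGroup.map Subtype.val (g₀ (Γ.lab i.1))))⁻¹ =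
            (f (Γ.lab i.1))⁻¹ * (f (Γ.init i.1) *
            (II Γ f (FreeGroup.map Subtype.val (g₀ (Γ.init i.1))))⁻¹) := by
          rw [← h1]
          group
        rw [h2]
        group }
  refine ⟨Quotient (cst Γ.lab Γ.init S), {e // e ∉ S}, Fintype.ofFinite _, inferInstance, h, ?_⟩
  have hl : ∀ i j : {e // e ∉ S}, cyc (h.l i) j.1 = - (if i = j then 1 else 0) := by
    intro i j
    show cyc ((FreeGroup.map Subtype.val (g₀ (Γ.lab i.1)))⁻¹ *
        FreeGroup.map Subtype.val (g₀ (Γ.init i.1)) * (FreeGroup.of i.1)⁻¹) j.1 = _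
    rw [cyc_mul, cyc_mul, cyc_inv, cyc_inv, cyc_map S _ _ j.2, cyc_map S _ _ j.2, cyc_of]
    by_cases hij : i = j
    · subst hij
      simp
    · have : (i : E) ≠ j := fun h' => hij (Subtype.ext h')
      rw [if_neg this, if_neg hij]
      ring
  rw [Fintype.linearIndependent_iff]
  intro c hc i
  have h3 := congrFun hc i.1
  rw [Finset.sum_apply] at h3
  simp only [Pi.smul_apply, smul_eq_mul, Pi.zero_apply] at h3
  rw [Finset.sum_congr rfl (fun j _ => by rw [hl j i])] at h3
  simpa using h3

end Pool.Agent.LThin
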