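import Pool.Agent.Lib.LOTI.LDefs

/-!
# Thin and independent labelled oriented trees

(helper62, problem MP_cf50d6_gt)
-/

set_option autoImplicit false

open scoped Classical

namespace Pool.Agent.LThin

open Pool.Agent.LOTI

variable {V E : Type} [Fintype V] [Fintype E]

/-- a numbering `κ` of the `c + 2` components of the initial graph `I(Γ)` such that for every `i < c`
there are an edge `e i` and a closed walk `l i` in `I(Γ)`, which passes `e i` exactly once and does not
pass the other edges `e k`, such that exactly one passage of `l i` is along an edge whose terminal vertex is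
in the component `i + 2`, and the vertices of `l i` and all other terminal vertices of the edges passed by
`l i` are in components with numbers `< i + 2` -/
structure ThinData (Γ : LOT V E) (c : ℕ) where
  κ : V → Fin (c + 2)
  surj : Function.Surjective κ
  comp : ∀ v w, κ v = κ w ↔ Relation.EqvGen Γ.IAdj v w
  e : Fin c → E
  l : Fin c → List (E × Bool)
  b : Fin c → V
  closed : ∀ i, Γ.IWalk (b i) (l i) (b i)
  once : ∀ i, ((l i).map Prod.fst).count (e i) = 1
  other : ∀ i k, i ≠ k → e k ∉ (l i).map Prod.fst
  low : ∀ i, ∀ s ∈ l i, κ (Γ.lab s.1) < i.succ.succ ∧ κ (Γ.term s.1) ≤ i.succ.succ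
  one : ∀ i, ((l i).map fun s => κ (Γ.term s.1)).count i.succ.succ = 1

/-- the initial graph is connected, or all but one of the independent cycles of the initial graph can be used
to eliminate a component -/
def Thin (Γ : LOT V E) : Prop :=
  (∀ v w, Relation.EqvGen Γ.IAdj v w) ∨ ∃ c, Nonempty (ThinData Γ c)

/-- a rational cycle `∑ c e * e ≠ 0` of the initial graph (edges from `lab e` to `init e`) has the property that
`∑ c e * (term e - lab e)` is not zero in the vector space generated by the components of the initial graph -/
def Indep (Γ : LOT V E) : Prop :=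
  ∀ c : E → ℚ, (∀ f : V → ℚ, ∑ e, c e * (f (Γ.init e) - f (Γ.lab e)) = 0) →
    (∀ f : V → ℚ, (∀ e, f (Γ.init e) = f (Γ.lab e)) →
      ∑ e, c e * (f (Γ.term e) - f (Γ.lab e)) = 0) → c = 0

end Pool.Agent.LThin
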