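import Pool.Agent.Lib.LTree.Main
import Pool.Agent.Lib.LThin.TDefs

/-!
# Quotients of the level groups : definitions
-/

set_option autoImplicit false

open scoped Classical

namespace Pool.Agent.LThin

open Pool.Agent.LOTI Pool.Agent.LTree

variable {V E : Type} [Fintype V] [Fintype E]

/-- components (numbered by `J`), cycles `l i`, `i : ι`, of the initial graph which generate all cycles, a potential
`g` modulo these cycles -/
structure GPt (Γ : LOT V E) (J ι : Type) where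
  κ : V → J
  b : J → V
  hb : ∀ i, κ (b i) = i
  g : V → FreeGroup E
  l : ι → FreeGroup E
  hκ : ∀ e, κ (Γ.lab e) = κ (Γ.init e)
  pot : ∀ (X : Type) [Group X] (f : FreeGroup E →* X), (∀ i, f (l i) = 1) →
    ∀ e, f (g (Γ.init e)) = f (g (Γ.lab e)) * f (FreeGroup.of e)
  const : ∀ (X : Type) [Group X] (f : V → X) (v w : V), κ v = κ w →
    f v * (II Γ f (g v))⁻¹ = f w * (II Γ f (g w))⁻¹
  closed : ∀ (X : Type) [Group X] (f : V → X) (i : ι), II Γ f (l i) = 1

/-- the coefficient of `e` in the abelianization of `w` -/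
noncomputable def cyc {E : Type} (w : FreeGroup E) (e : E) : ℚ :=
  (FreeGroup.lift (fun e' : E => Multiplicative.ofAdd (if e' = e then (1 : ℚ) else 0)) w).toAdd

/-- the equations given by the cycles `l 1, …, l c` can be solved uniquely for the components
`2, …, c + 1` -/
def Elim {Γ : LOT V E} {c : ℕ} (h : GPt Γ (Fin (c + 2)) (Fin (c + 1))) : Prop :=
  ∀ (Y : Type) [Group Y] (γ : V → Y) (u : Bool → Y), ∃! ζ : Fin (c + 2) → Y,
    ζ 0 = u false ∧ ζ 1 = u true ∧
      ∀ i : Fin c, TT Γ (fun v => ζ (h.κ v) * γ v) (h.l i.succ) = 1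

/-- `A` is the free product of `P / <<r i, i : ι>>` and the free group on the `z k`, `k : J` -/
structure SplitJ {P A ι : Type} [Group P] [Group A] (j : P →* A) (r : ι → P) (J : Type) where
  z : J → A
  kill : ∀ i, j (r i) = 1
  gen : ∀ H : Subgroup A, (∀ p, j p ∈ H) → (∀ i, z i ∈ H) → H = ⊤
  univ : ∀ (Y : Type) [Group Y] (f : P →* Y) (u : J → Y), (∀ i, f (r i) = 1) →
    ∃ F : A →* Y, (∀ p, F (j p) = f p) ∧ ∀ i, F (z i) = u i

/-- elements of the last level which die one level higher -/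
structure Top (Γ : LOT V E) where
  W : ∀ n, Set (XG Γ n)
  up : ∀ n, ss Γ n '' W n = W (n + 1)
  dn : ∀ n, ∀ w ∈ W n, jj Γ n w = 1

/-- elements of the first level which die one level lower -/
structure Bot (Γ : LOT V E) where
  W : ∀ n, Set (XG Γ n)
  up : ∀ n, jj Γ n '' W n = W (n + 1)
  dn : ∀ n, ∀ w ∈ W n, ss Γ n w = 1

/-- the empty family -/
def Top.nil (Γ : LOT V E) : Top Γ where
  W _ := ∅
  up n := by simp
  dn n w h := absurd h (Set.notMem_empty w)

/-- the empty family -/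
def Bot.nil (Γ : LOT V E) : Bot Γ where
  W _ := ∅
  up n := by simp
  dn n w h := absurd h (Set.notMem_empty w)

/-- shifting and including commute -/
theorem jj_ss (Γ : LOT V E) (n : ℕ) (p : XG Γ n) :
    jj Γ (n + 1) (ss Γ n p) = ss Γ (n + 1) (jj Γ n p) := by
  refine xg_ext Γ n (F := (jj Γ (n + 1)).comp (ss Γ n)) (F' := (ss Γ (n + 1)).comp (jj Γ n)) ?_ p
  intro d v
  simp only [MonoidHom.comp_apply, ss_xg, jj_xg]
  rw [Fin.succ_castSucc]

/-- the normal subgroup -/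
def NQ {Γ : LOT V E} (A : Top Γ) (B : Bot Γ) (n : ℕ) : Subgroup (XG Γ n) :=
  Subgroup.normalClosure (A.W n ∪ B.W n)

instance {Γ : LOT V E} (A : Top Γ) (B : Bot Γ) (n : ℕ) : (NQ A B n).Normal :=
  Subgroup.normalClosure_normal

/-- the group of the levels `0, …, n` modulo the elements of `A` and `B` -/
abbrev PQ {Γ : LOT V E} (A : Top Γ) (B : Bot Γ) (n : ℕ) : Type := XG Γ n ⧸ NQ A B n

theorem NQ_jj {Γ : LOT V E} (A : Top Γ) (B : Bot Γ) (n : ℕ) :
    NQ A B n ≤ (NQ A B (n + 1)).comap (jj Γ n) := by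
  refine Subgroup.normalClosure_le_normal ?_
  rintro w (hw | hw)
  · show jj Γ n w ∈ NQ A B (n + 1)
    rw [A.dn n w hw]
    exact Subgroup.one_mem _
  · refine Subgroup.subset_normalClosure (Or.inr ?_)
    rw [← B.up n]
    exact ⟨w, hw, rfl⟩

theorem NQ_ss {Γ : LOT V E} (A : Top Γ) (B : Bot Γ) (n : ℕ) :
    NQ A B n ≤ (NQ A B (n + 1)).comap (ss Γ n) := by
  refine Subgroup.normalClosure_le_normal ?_
  rintro w (hw | hw)
  · refine Subgroup.subset_normalClosure (Or.inl ?_)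
    rw [← A.up n]
    exact ⟨w, hw, rfl⟩
  · show ss Γ n w ∈ NQ A B (n + 1)
    rw [B.dn n w hw]
    exact Subgroup.one_mem _

/-- the inclusion -/
noncomputable def jQ {Γ : LOT V E} (A : Top Γ) (B : Bot Γ) (n : ℕ) : PQ A B n →* PQ A B (n + 1) :=
  QuotientGroup.map _ _ (jj Γ n) (NQ_jj A B n)

/-- the shift -/
noncomputable def sQ {Γ : LOT V E} (A : Top Γ) (B : Bot Γ) (n : ℕ) : PQ A B n →* PQ A B (n + 1) :=
  QuotientGroup.map _ _ (ss Γ n) (NQ_ss A B n)

/-- the projection -/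
def qQ {Γ : LOT V E} (A : Top Γ) (B : Bot Γ) (n : ℕ) : XG Γ n →* PQ A B n :=
  QuotientGroup.mk' _

theorem jQ_q {Γ : LOT V E} (A : Top Γ) (B : Bot Γ) (n : ℕ) (p : XG Γ n) :
    jQ A B n (qQ A B n p) = qQ A B (n + 1) (jj Γ n p) := rfl

theorem sQ_q {Γ : LOT V E} (A : Top Γ) (B : Bot Γ) (n : ℕ) (p : XG Γ n) :
    sQ A B n (qQ A B n p) = qQ A B (n + 1) (ss Γ n p) := rfl

theorem qQ_surj {Γ : LOT V E} (A : Top Γ) (B : Bot Γ) (n : ℕ) :
    Function.Surjective (qQ A B n) := QuotientGroup.mk_surjective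

theorem qQ_W {Γ : LOT V E} (A : Top Γ) (B : Bot Γ) (n : ℕ) (w : XG Γ n)
    (h : w ∈ A.W n ∨ w ∈ B.W n) : qQ A B n w = 1 :=
  (QuotientGroup.eq_one_iff w).2 (Subgroup.subset_normalClosure h)

/-- the universal property -/
theorem qQ_lift {Γ : LOT V E} (A : Top Γ) (B : Bot Γ) (n : ℕ) {Y : Type} [Group Y]
    (f : XG Γ n →* Y) (hA : ∀ w ∈ A.W n, f w = 1) (hB : ∀ w ∈ B.W n, f w = 1) :
    ∃ F : PQ A B n →* Y, ∀ p, F (qQ A B n p) = f p := by
  refine ⟨QuotientGroup.lift _ f ?_, fun p => rfl⟩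
  intro x hx
  have h1 : NQ A B n ≤ f.ker := by
    refine Subgroup.normalClosure_le_normal ?_
    rintro w (hw | hw)
    · exact hA w hw
    · exact hB w hw
  exact h1 hx

/-- the relators of the last level -/
def rJ {Γ : LOT V E} {J ι : Type} (h : GPt Γ J ι) (n : ℕ) (i : ι) : XG Γ n :=
  TT Γ (xg Γ n (Fin.last n)) (h.l i)

theorem ss_rJ {Γ : LOT V E} {J ι : Type} (h : GPt Γ J ι) (n : ℕ) (i : ι) :
    ss Γ n (rJ h n i) = rJ h (n + 1) i := by
  unfold rJ
  rw [map_TT]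
  congr 1
  congr 1
  funext v
  rw [ss_xg, Fin.succ_last]

/-- `(x' (lab e))⁻¹ * x' (init e) = x (term e) * (x (lab e))⁻¹` for the last two levels -/
theorem II_last (Γ : LOT V E) (n : ℕ) (w : FreeGroup E) :
    II Γ (xg Γ (n + 1) (Fin.last (n + 1))) w = jj Γ n (TT Γ (xg Γ n (Fin.last n)) w) := by
  have h : II Γ (xg Γ (n + 1) (Fin.last (n + 1))) =
      TT Γ (fun v => jj Γ n (xg Γ n (Fin.last n) v)) := by
    apply FreeGroup.ext_hom
    intro e
    have h := xg_rel Γ (n + 1) e (Fin.last n)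
    rw [Fin.succ_last] at h
    simp only [II, TT, FreeGroup.lift_apply_of, jj_xg]
    rw [inv_mul_eq_iff_eq_mul, ← mul_assoc, eq_mul_inv_iff_mul_eq]
    exact h
  rw [h, map_TT]

theorem jj_rJ {Γ : LOT V E} {J ι : Type} (h : GPt Γ J ι) (n : ℕ) (i : ι) :
    jj Γ n (rJ h n i) = 1 := by
  unfold rJ
  rw [← II_last, h.closed]

/-- the eliminating relators -/
def Etop {Γ : LOT V E} {c : ℕ} (h : GPt Γ (Fin (c + 2)) (Fin (c + 1))) : Top Γ where
  W n := Set.range fun i : Fin c => rJ h n i.succ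
  up n := by
    rw [← Set.range_comp]
    congr 1
    funext i
    exact ss_rJ h n i.succ
  dn n := by
    rintro _ ⟨i, rfl⟩
    exact jj_rJ h n i.succ

/-- the group isomorphism `x (v, d) ↦ (x (v, n - d))⁻¹` between the level groups of `Γ` and of `Γ.rev` -/
theorem exists_nu (Γ : LOT V E) (n : ℕ) :
    ∃ F : XG Γ n →* XG Γ.rev n, ∀ d v, F (xg Γ n d v) = (xg Γ.rev n (Fin.rev d) v)⁻¹ := by
  refine xg_univ Γ n (fun d v => (xg Γ.rev n (Fin.rev d) v)⁻¹) ?_
  intro e d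
  have h := xg_rel Γ.rev n e (Fin.rev d)
  have h1 : Γ.rev.init e = Γ.term e := rfl
  have h2 : Γ.rev.term e = Γ.init e := rfl
  have h3 : Γ.rev.lab e = Γ.lab e := rfl
  rw [h1, h2, h3] at h
  rw [Fin.rev_succ, Fin.rev_castSucc, ← mul_inv_rev, ← mul_inv_rev, h]

/-- the isomorphism -/
noncomputable def nu (Γ : LOT V E) (n : ℕ) : XG Γ n →* XG Γ.rev n := (exists_nu Γ n).choose

theorem nu_xg (Γ : LOT V E) (n : ℕ) (d : Fin (n + 1)) (v : V) :
    nu Γ n (xg Γ n d v) = (xg Γ.rev n (Fin.rev d) v)⁻¹ := (exists_nu Γ n).choose_spec d v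

/-- the inverse isomorphism (`Γ.rev.rev = Γ`) -/
noncomputable def mu (Γ : LOT V E) (n : ℕ) : XG Γ.rev n →* XG Γ n := nu Γ.rev n

theorem mu_xg (Γ : LOT V E) (n : ℕ) (d : Fin (n + 1)) (v : V) :
    mu Γ n (xg Γ.rev n d v) = (xg Γ n (Fin.rev d) v)⁻¹ := nu_xg Γ.rev n d v

theorem mu_nu (Γ : LOT V E) (n : ℕ) (p : XG Γ n) : mu Γ n (nu Γ n p) = p := by
  have h := xg_ext Γ n (F := (mu Γ n).comp (nu Γ n)) (F' := MonoidHom.id _)
    (fun d v => by
      rw [MonoidHom.comp_apply, nu_xg, map_inv, mu_xg, inv_inv, Fin.rev_rev,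
        MonoidHom.id_apply]) p
  exact h

theorem nu_mu (Γ : LOT V E) (n : ℕ) (p : XG Γ.rev n) : nu Γ n (mu Γ n p) = p := by
  have h := xg_ext Γ.rev n (F := (nu Γ n).comp (mu Γ n)) (F' := MonoidHom.id _)
    (fun d v => by
      rw [MonoidHom.comp_apply, mu_xg, map_inv, nu_xg, inv_inv, Fin.rev_rev,
        MonoidHom.id_apply]) p
  exact h

theorem nu_jj (Γ : LOT V E) (n : ℕ) (p : XG Γ n) :
    nu Γ (n + 1) (jj Γ n p) = ss Γ.rev n (nu Γ n p) := by
  have h := xg_ext Γ n (F := (nu Γ (n + 1)).comp (jj Γ n)) (F' := (ss Γ.rev n).comp (nu Γ n))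
    (fun d v => by
      rw [MonoidHom.comp_apply, MonoidHom.comp_apply, jj_xg, nu_xg, nu_xg, map_inv, ss_xg,
        Fin.rev_castSucc]) p
  exact h

theorem nu_ss (Γ : LOT V E) (n : ℕ) (p : XG Γ n) :
    nu Γ (n + 1) (ss Γ n p) = jj Γ.rev n (nu Γ n p) := by
  have h := xg_ext Γ n (F := (nu Γ (n + 1)).comp (ss Γ n)) (F' := (jj Γ.rev n).comp (nu Γ n))
    (fun d v => by
      rw [MonoidHom.comp_apply, MonoidHom.comp_apply, ss_xg, nu_xg, nu_xg, map_inv, jj_xg,
        Fin.rev_succ]) p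
  exact h

/-- reversing a family of elements of the first level -/
def Bot.rev {Γ : LOT V E} (B : Bot Γ) : Top Γ.rev where
  W n := nu Γ n '' B.W n
  up n := by
    rw [← B.up n, Set.image_image, Set.image_image]
    congr 1
    funext p
    exact (nu_jj Γ n p).symm
  dn n := by
    rintro _ ⟨w, hw, rfl⟩
    rw [← nu_ss, B.dn n w hw, map_one]

/-- reversing a family of elements of the last level -/
def Top.rev {Γ : LOT V E} (A : Top Γ) : Bot Γ.rev where
  W n := nu Γ n '' A.W n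
  up n := by
    rw [← A.up n, Set.image_image, Set.image_image]
    congr 1
    funext p
    exact (nu_ss Γ n p).symm
  dn n := by
    rintro _ ⟨w, hw, rfl⟩
    rw [← nu_jj, A.dn n w hw, map_one]

end Pool.Agent.LThin
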