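import Pool.Agent.Lib.LThin.GDefs

/-!
# `P (n + 1) = P n / <<r_n i, i : ι>> * F(J)`

`P n = PQ (Top.nil Γ) B n`, `q = qQ (Top.nil Γ) B`. As `LTree.xsplit`, with all cycles `h.l i` as relators, `J` as the
set of letters, and with the elements `B.W` killed.
Write `x = xg Γ n (Fin.last n)`, `x' = xg Γ (n+1) (Fin.last (n+1))`, `T = TT Γ x`, `I' = II Γ x'`;
`II_last : I' w = jj (T w)`. `z k = q (x' (h.b k) * (I' (h.g (h.b k)))⁻¹)`.
-/

set_option autoImplicit false

open scoped Classical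

namespace Pool.Agent.LThin

open Pool.Agent.LOTI Pool.Agent.LTree

variable {V E : Type} [Fintype V] [Fintype E]

private theorem last_eq {Γ : LOT V E} {J ι : Type} (h : GPt Γ J ι) (n : ℕ) (v : V) :
    xg Γ (n + 1) (Fin.last (n + 1)) v =
      (xg Γ (n + 1) (Fin.last (n + 1)) (h.b (h.κ v)) *
        (II Γ (xg Γ (n + 1) (Fin.last (n + 1))) (h.g (h.b (h.κ v))))⁻¹) *
      jj Γ n (TT Γ (xg Γ n (Fin.last n)) (h.g v)) := by
  have h3 := h.const _ (xg Γ (n + 1) (Fin.last (n + 1))) v (h.b (h.κ v)) (h.hb _).symm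
  rw [← h3, ← II_last, inv_mul_cancel_right]

theorem gsplit {Γ : LOT V E} {J ι : Type} (h : GPt Γ J ι) (B : Bot Γ) (n : ℕ) :
    ∃ S : SplitJ (jQ (Top.nil Γ) B n) (fun i => qQ (Top.nil Γ) B n (rJ h n i)) J,
      ∀ v, qQ (Top.nil Γ) B (n + 1) (xg Γ (n + 1) (Fin.last (n + 1)) v) =
        S.z (h.κ v) * jQ (Top.nil Γ) B n
          (qQ (Top.nil Γ) B n (TT Γ (xg Γ n (Fin.last n)) (h.g v))) := by
  have hlast : ∀ v, qQ (Top.nil Γ) B (n + 1) (xg Γ (n + 1) (Fin.last (n + 1)) v) =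
      qQ (Top.nil Γ) B (n + 1) (xg Γ (n + 1) (Fin.last (n + 1)) (h.b (h.κ v)) *
        (II Γ (xg Γ (n + 1) (Fin.last (n + 1))) (h.g (h.b (h.κ v))))⁻¹) *
      jQ (Top.nil Γ) B n (qQ (Top.nil Γ) B n (TT Γ (xg Γ n (Fin.last n)) (h.g v))) := by
    intro v
    rw [jQ_q, ← map_mul]
    exact congrArg _ (last_eq h n v)
  refine ⟨{
    z := fun k => qQ (Top.nil Γ) B (n + 1) (xg Γ (n + 1) (Fin.last (n + 1)) (h.b k) *
      (II Γ (xg Γ (n + 1) (Fin.last (n + 1))) (h.g (h.b k)))⁻¹)
    kill := ?_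
    gen := ?_
    univ := ?_ }, hlast⟩
  · intro i
    rw [jQ_q, jj_rJ, map_one]
  · intro H h1 h2
    have hc : H.comap (qQ (Top.nil Γ) B (n + 1)) = ⊤ := by
      refine xg_gen Γ (n + 1) _ fun d v => ?_
      rw [Subgroup.mem_comap]
      induction d using Fin.lastCases with
      | last =>
        rw [hlast]
        exact H.mul_mem (h2 _) (h1 _)
      | cast d =>
        rw [← jj_xg, ← jQ_q]
        exact h1 _
    rw [eq_top_iff]
    intro y _
    obtain ⟨x, rfl⟩ := qQ_surj (Top.nil Γ) B (n + 1) y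
    have hx : x ∈ H.comap (qQ (Top.nil Γ) B (n + 1)) := by
      rw [hc]
      exact Subgroup.mem_top x
    exact hx
  · intro Y _ f u hf
    let f' : XG Γ n →* Y := f.comp (qQ (Top.nil Γ) B n)
    have hfT : ∀ i, (f'.comp (TT Γ (xg Γ n (Fin.last n)))) (h.l i) = 1 := fun i => hf i
    have hpot := h.pot Y (f'.comp (TT Γ (xg Γ n (Fin.last n)))) hfT
    obtain ⟨F, hF⟩ := xg_univ Γ (n + 1) (Y := Y)
      (fun d => Fin.lastCases (motive := fun _ => V → Y)
        (fun v => u (h.κ v) * (f'.comp (TT Γ (xg Γ n (Fin.last n)))) (h.g v))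
        (fun d v => f' (xg Γ n d v)) d) (by
      intro e d
      induction d using Fin.lastCases with
      | last =>
        rw [Fin.succ_last]
        simp only [Fin.lastCases_last, Fin.lastCases_castSucc]
        rw [hpot e, h.hκ e]
        simp only [MonoidHom.comp_apply, TT, FreeGroup.lift_apply_of, map_mul, map_inv]
        group
      | cast d =>
        rw [Fin.succ_castSucc]
        simp only [Fin.lastCases_castSucc]
        rw [← map_mul, ← map_mul, xg_rel])
    have hFj : ∀ p, F (jj Γ n p) = f' p := by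
      intro p
      refine xg_ext Γ n (F := F.comp (jj Γ n)) (F' := f') ?_ p
      intro d v
      rw [MonoidHom.comp_apply, jj_xg, hF]
      simp only [Fin.lastCases_castSucc]
    obtain ⟨G, hG⟩ := qQ_lift (Top.nil Γ) B (n + 1) F
      (fun w hw => absurd hw (Set.notMem_empty w)) (by
        intro w hw
        rw [← B.up n] at hw
        obtain ⟨w', hw', rfl⟩ := hw
        rw [hFj]
        show f (qQ (Top.nil Γ) B n w') = 1
        rw [qQ_W _ _ _ _ (Or.inr hw'), map_one])
    refine ⟨G, fun p => ?_, fun k => ?_⟩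
    · obtain ⟨x, rfl⟩ := qQ_surj (Top.nil Γ) B n p
      rw [jQ_q, hG, hFj]
      rfl
    · rw [hG, map_mul, map_inv, II_last, hFj, hF]
      simp only [Fin.lastCases_last, MonoidHom.comp_apply]
      rw [mul_inv_cancel_right, h.hb]

end Pool.Agent.LThin
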