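import Pool.Agent.Lib.LThin.GDefs
import Pool.Agent.Lib.LOTI.Lim

/-!
# From the quotients of the groups of finitely many levels to the group of all levels

As `LTree.hat_of_levels` (module LTree/HatX, please copy it), with `PQ A B (2 N)` instead of `XG Γ (2 N)`.
PROOF. Let `S`, `T`, `N`, `Φ : FreeGroup (V × ℤ) →* XG Γ (2 N)` be as there, `N ≥ 1`. `L = PQ A B (2 N)`, `Φ' = (qQ A B (2 N)).comp Φ`. `Φ' x = 1` for `x ∈ T` is clear. For `x ∈ S` with `Φ' x = 1` one needs a homomorphism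
`π' : PQ A B (2 N) →* Γ.Hat` with `π' (q p) = π p`, where `π : XG Γ (2 N) →* Γ.Hat`, `xg d v ↦ of (v, N - d)`: by `qQ_lift` we have to show that `π` kills `A.W (2N)` and `B.W (2N)`. For every `n` and `a : ℤ` let
`π n a : XG Γ n →* Γ.Hat`, `xg Γ n d v ↦ of (v, a - d)` (`xg_univ`, `LOT.hat_rel`). Then `π n a = (π (n+1) a) ∘ jj Γ n` and `π n a = (π (n+1) (a + 1)) ∘ ss Γ n` (on generators, `jj_xg`, `ss_xg`), so `w ∈ A.W n` gives
`π n a w = π (n+1) a (jj w) = 1` (`A.dn`) and `w ∈ B.W n` gives `π n a w = π (n+1) (a+1) (ss w) = 1` (`B.dn`).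
-/

set_option autoImplicit false

open scoped Classical

namespace Pool.Agent.LThin

open Pool.Agent.LOTI Pool.Agent.LTree

variable {V E : Type} [Fintype V] [Fintype E]

private def bndS (V : Type) (N : ℕ) : Set (FreeGroup (V × ℤ)) :=
  {x | ∃ (v : V) (s : ℤ), |s| ≤ N ∧ x = FreeGroup.of (v, s)}

private def bndR (Γ : LOT V E) (N : ℕ) : Set (FreeGroup (V × ℤ)) :=
  {r | ∃ (e : E) (s : ℤ), |s| < N ∧ r = FreeGroup.of (Γ.init e, s) *
    FreeGroup.of (Γ.lab e, s + 1) *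
    (FreeGroup.of (Γ.lab e, s) * FreeGroup.of (Γ.term e, s + 1))⁻¹}

omit [Fintype V] in
private theorem bndS_mono {N M : ℕ} (h : N ≤ M) : bndS V N ⊆ bndS V M := by
  rintro x ⟨v, s, hs, rfl⟩
  exact ⟨v, s, le_trans hs (by exact_mod_cast h), rfl⟩

private theorem bndR_mono (Γ : LOT V E) {N M : ℕ} (h : N ≤ M) : bndR Γ N ⊆ bndR Γ M := by
  rintro x ⟨e, s, hs, rfl⟩
  exact ⟨e, s, lt_of_lt_of_le hs (by exact_mod_cast h), rfl⟩

omit [Fintype V] in
private theorem exS (x : FreeGroup (V × ℤ)) : ∃ N : ℕ, x ∈ Subgroup.closure (bndS V N) := by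
  induction x using FreeGroup.induction_on with
  | C1 => exact ⟨0, Subgroup.one_mem _⟩
  | of a =>
    refine ⟨a.2.natAbs, Subgroup.subset_closure ⟨a.1, a.2, ?_, rfl⟩⟩
    rw [Int.natCast_natAbs]
  | inv_of a h =>
    obtain ⟨N, hN⟩ := h
    exact ⟨N, Subgroup.inv_mem _ hN⟩
  | mul a b ha hb =>
    obtain ⟨N, hN⟩ := ha
    obtain ⟨M, hM⟩ := hb
    exact ⟨max N M, Subgroup.mul_mem _
      (Subgroup.closure_mono (bndS_mono (le_max_left _ _)) hN)
      (Subgroup.closure_mono (bndS_mono (le_max_right _ _)) hM)⟩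

private theorem exR (Γ : LOT V E) (x : FreeGroup (V × ℤ))
    (hx : x ∈ Subgroup.normalClosure Γ.hrels) :
    ∃ N : ℕ, x ∈ Subgroup.normalClosure (bndR Γ N) := by
  unfold Subgroup.normalClosure at hx
  induction hx using Subgroup.closure_induction with
  | mem x hx =>
    rw [Group.mem_conjugatesOfSet_iff] at hx
    obtain ⟨a, ha, hc⟩ := hx
    obtain ⟨e, s, rfl⟩ := ha
    rw [isConj_iff] at hc
    obtain ⟨c, rfl⟩ := hc
    have h1 : FreeGroup.of (Γ.init e, s) * FreeGroup.of (Γ.lab e, s + 1) *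
        (FreeGroup.of (Γ.lab e, s) * FreeGroup.of (Γ.term e, s + 1))⁻¹ ∈
          bndR Γ (s.natAbs + 1) := by
      refine ⟨e, s, ?_, rfl⟩
      push_cast
      exact lt_add_one _
    exact ⟨s.natAbs + 1, Subgroup.normalClosure_normal.conj_mem _
      (Subgroup.subset_normalClosure h1) c⟩
  | one => exact ⟨0, Subgroup.one_mem _⟩
  | mul a b _ _ ha hb =>
    obtain ⟨N, hN⟩ := ha
    obtain ⟨M, hM⟩ := hb
    exact ⟨max N M, Subgroup.mul_mem _
      (Subgroup.normalClosure_mono (bndR_mono Γ (le_max_left _ _)) hN)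
      (Subgroup.normalClosure_mono (bndR_mono Γ (le_max_right _ _)) hM)⟩
  | inv a _ h =>
    obtain ⟨N, hN⟩ := h
    exact ⟨N, Subgroup.inv_mem _ hN⟩

private theorem fin_mono {X : Type} (P : ℕ → X → Prop) (hP : ∀ N M x, N ≤ M → P N x → P M x)
    (S : Finset X) (h : ∀ x ∈ S, ∃ N, P N x) : ∃ N, ∀ x ∈ S, P N x := by
  induction S using Finset.induction_on with
  | empty => exact ⟨0, fun x hx => absurd hx (Finset.notMem_empty x)⟩
  | insert a S _ ih =>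
    obtain ⟨N, hN⟩ := ih fun x hx => h x (Finset.mem_insert_of_mem hx)
    obtain ⟨M, hM⟩ := h a (Finset.mem_insert_self _ _)
    refine ⟨max N M, fun x hx => ?_⟩
    rcases Finset.mem_insert.1 hx with rfl | hx
    · exact hP _ _ _ (le_max_right _ _) hM
    · exact hP _ _ _ (le_max_left _ _) (hN x hx)

private theorem exPi (Γ : LOT V E) (n : ℕ) (a : ℤ) :
    ∃ π : XG Γ n →* Γ.Hat, ∀ d v, π (xg Γ n d v) =
      PresentedGroup.of (v, a - ((d : ℕ) : ℤ)) := by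
  refine xg_univ Γ n (Y := Γ.Hat)
    (fun d v => PresentedGroup.of (v, a - ((d : ℕ) : ℤ))) ?_
  intro e d
  have h1 : (a - ((d.succ : ℕ) : ℤ)) + 1 = a - ((d.castSucc : ℕ) : ℤ) := by
    rw [Fin.val_succ, Fin.val_castSucc]
    push_cast
    ring
  have h2 := Γ.hat_rel e (a - ((d.succ : ℕ) : ℤ))
  rw [h1] at h2
  exact h2

private theorem pi_jj (Γ : LOT V E) (n : ℕ) (a : ℤ) (π : XG Γ n →* Γ.Hat)
    (hπ : ∀ d v, π (xg Γ n d v) = PresentedGroup.of (v, a - ((d : ℕ) : ℤ)))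
    (w : XG Γ n) (h : jj Γ n w = 1) : π w = 1 := by
  obtain ⟨π', hπ'⟩ := exPi Γ (n + 1) a
  have h1 : π w = π' (jj Γ n w) := by
    refine xg_ext Γ n (F := π) (F' := π'.comp (jj Γ n)) (fun d v => ?_) w
    rw [MonoidHom.comp_apply, hπ, jj_xg, hπ', Fin.val_castSucc]
  rw [h1, h, map_one]

private theorem pi_ss (Γ : LOT V E) (n : ℕ) (a : ℤ) (π : XG Γ n →* Γ.Hat)
    (hπ : ∀ d v, π (xg Γ n d v) = PresentedGroup.of (v, a - ((d : ℕ) : ℤ)))
    (w : XG Γ n) (h : ss Γ n w = 1) : π w = 1 := by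
  obtain ⟨π', hπ'⟩ := exPi Γ (n + 1) (a + 1)
  have h1 : π w = π' (ss Γ n w) := by
    refine xg_ext Γ n (F := π) (F' := π'.comp (ss Γ n)) (fun d v => ?_) w
    have h2 : (a + 1) - ((d.succ : ℕ) : ℤ) = a - ((d : ℕ) : ℤ) := by
      rw [Fin.val_succ]
      push_cast
      ring
    rw [MonoidHom.comp_apply, hπ, ss_xg, hπ', h2]
  rw [h1, h, map_one]

theorem hat_of_levelsQ {Γ : LOT V E} (A : Top Γ) (B : Bot Γ) (h : ∀ n, LI (PQ A B n)) :
    LI Γ.Hat := by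
  refine LI_lim (F := FreeGroup (V × ℤ)) (Subgroup.normalClosure Γ.hrels) ?_
  intro S T hT
  obtain ⟨N1, hN1⟩ := fin_mono (fun N x => x ∈ Subgroup.closure (bndS V N))
    (fun N M x hNM hx => Subgroup.closure_mono (bndS_mono hNM) hx) S (fun x _ => exS x)
  obtain ⟨N2, hN2⟩ := fin_mono (fun N x => x ∈ Subgroup.normalClosure (bndR Γ N))
    (fun N M x hNM hx => Subgroup.normalClosure_mono (bndR_mono Γ hNM) hx) T
    (fun x hx => exR Γ x (hT x hx))
  set N : ℕ := max N1 N2 with hN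
  have hS' : ∀ x ∈ S, x ∈ Subgroup.closure (bndS V N) := fun x hx =>
    Subgroup.closure_mono (bndS_mono (le_max_left _ _)) (hN1 x hx)
  have hT' : ∀ x ∈ T, x ∈ Subgroup.normalClosure (bndR Γ N) := fun x hx =>
    Subgroup.normalClosure_mono (bndR_mono Γ (le_max_right _ _)) (hN2 x hx)
  set Φ : FreeGroup (V × ℤ) →* XG Γ (2 * N) :=
    FreeGroup.lift (fun a : V × ℤ => if hd : ((N : ℤ) - a.2).toNat < 2 * N + 1 then
      xg Γ (2 * N) ⟨((N : ℤ) - a.2).toNat, hd⟩ a.1 else 1) with hΦ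
  have hΦof : ∀ (v : V) (s : ℤ) (d : Fin (2 * N + 1)), ((N : ℤ) - s).toNat = (d : ℕ) →
      Φ (FreeGroup.of (v, s)) = xg Γ (2 * N) d v := by
    intro v s d hd
    rw [hΦ, FreeGroup.lift_apply_of]
    have h1 : ((N : ℤ) - s).toNat < 2 * N + 1 := by
      rw [hd]
      exact d.isLt
    have h2 : (⟨((N : ℤ) - s).toNat, h1⟩ : Fin (2 * N + 1)) = d := Fin.ext hd
    rw [dif_pos h1, h2]
  have hR : Subgroup.normalClosure (bndR Γ N) ≤ Φ.ker := by
    refine Subgroup.normalClosure_le_normal ?_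
    rintro r ⟨e, s, hs, rfl⟩
    rw [abs_lt] at hs
    obtain ⟨hs1, hs2⟩ := hs
    have hd : ((N : ℤ) - (s + 1)).toNat < 2 * N := by omega
    have hd1 : ((N : ℤ) - s).toNat = ((N : ℤ) - (s + 1)).toNat + 1 := by omega
    show _ ∈ Φ.ker
    rw [MonoidHom.mem_ker, map_mul, map_inv, mul_inv_eq_one, map_mul, map_mul,
      hΦof _ s (Fin.succ ⟨_, hd⟩) (by rw [Fin.val_succ, hd1]),
      hΦof _ (s + 1) (Fin.castSucc ⟨_, hd⟩) (by rw [Fin.val_castSucc]),
      hΦof _ s (Fin.succ ⟨_, hd⟩) (by rw [Fin.val_succ, hd1]),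
      hΦof _ (s + 1) (Fin.castSucc ⟨_, hd⟩) (by rw [Fin.val_castSucc])]
    exact xg_rel Γ (2 * N) e ⟨_, hd⟩
  obtain ⟨π, hπ⟩ := exPi Γ (2 * N) (N : ℤ)
  have hB : Subgroup.closure (bndS V N) ≤
      MonoidHom.eqLocus (π.comp Φ) (PresentedGroup.mk Γ.hrels) := by
    rw [Subgroup.closure_le]
    rintro x ⟨v, s, hs, rfl⟩
    show π (Φ (FreeGroup.of (v, s))) = PresentedGroup.mk Γ.hrels (FreeGroup.of (v, s))
    rw [abs_le] at hs
    obtain ⟨hs1, hs2⟩ := hs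
    have hd : ((N : ℤ) - s).toNat < 2 * N + 1 := by omega
    rw [hΦof _ s ⟨_, hd⟩ rfl, hπ ⟨_, hd⟩ v]
    have hd1 : (N : ℤ) - (((N : ℤ) - s).toNat : ℤ) = s := by omega
    show PresentedGroup.of (v, (N : ℤ) - (((N : ℤ) - s).toNat : ℤ)) = _
    rw [hd1]
    rfl
  obtain ⟨π', hπ'⟩ := qQ_lift A B (2 * N) π
    (fun w hw => pi_jj Γ (2 * N) N π hπ w (A.dn _ w hw))
    (fun w hw => pi_ss Γ (2 * N) N π hπ w (B.dn _ w hw))
  refine ⟨PQ A B (2 * N), inferInstance, (qQ A B (2 * N)).comp Φ, h _, ?_, ?_⟩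
  · intro x hx
    rw [MonoidHom.comp_apply, MonoidHom.mem_ker.1 (hR (hT' x hx)), map_one]
  · intro x hx hx1
    have h3 : π (Φ x) = PresentedGroup.mk Γ.hrels x := hB (hS' x hx)
    rw [MonoidHom.comp_apply] at hx1
    rw [← hπ', hx1, map_one] at h3
    exact (QuotientGroup.eq_one_iff x).1 h3.symm

end Pool.Agent.LThin
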