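import Pool.Agent.Lib.LThin.GDefs

/-!
# Exponent vectors of the relators

`expv h i k` is the exponent sum of the letters of the component `k` in the relator `i`.
PROOFS.
* `cyc_sum`: both sides are homomorphisms in `w` (`FreeGroup.induction_on`), equal for `w = of e'` (`Finset.sum_ite_eq`).
* `sum_TT`: `cyc_sum` for `φ = TT Γ f` with `f : V → Multiplicative ℚ`.
* `cyc_closed`: `h.closed` with `X = Multiplicative ℚ`, and `cyc_sum` for `II Γ f`.
* `indep_expv`: let `∑ a i • expv h i = 0` (use `linearIndependent_iff'` or `Fintype.linearIndependent_iff` with `Fintype ι`) and `c e = ∑ i, a i * cyc (h.l i) e`. First condition of `Indep`: `cyc_closed`. Second condition: let `f (init e) = f (lab e)` for all `e`. Then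
  `II Γ (ofAdd ∘ f) = 1`, so by `h.const` `f v = f w` for `h.κ v = h.κ w`, so `f v = F (h.κ v)`, `F k = f (h.b k)` (`h.hb`), and `∑ c e * (f (term e) - f (lab e)) = ∑ k, F k * ∑ i, a i * expv h i k = 0` (`f v = ∑ k, F k * (if h.κ v = k then 1 else 0)`).
  So `c = 0`, and `a = 0` by `h1`.
-/

set_option autoImplicit false

open scoped Classical

namespace Pool.Agent.LThin

open Pool.Agent.LOTI Pool.Agent.LTree

variable {V E : Type} [Fintype V] [Fintype E]

/-- the exponent sum of the letters of the component `k` in the relator `i` -/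
noncomputable def expv {Γ : LOT V E} {J ι : Type} (h : GPt Γ J ι) (i : ι) (k : J) : ℚ :=
  ∑ e, cyc (h.l i) e *
    ((if h.κ (Γ.term e) = k then 1 else 0) - (if h.κ (Γ.lab e) = k then 1 else 0))

omit [Fintype E] in
private theorem cyc_one (e : E) : cyc (1 : FreeGroup E) e = 0 := by
  unfold cyc
  rw [map_one, toAdd_one]

omit [Fintype E] in
private theorem cyc_of (e' e : E) : cyc (FreeGroup.of e') e = if e' = e then 1 else 0 := by
  unfold cyc
  rw [FreeGroup.lift_apply_of, toAdd_ofAdd]

omit [Fintype E] in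
private theorem cyc_inv (w : FreeGroup E) (e : E) : cyc w⁻¹ e = - cyc w e := by
  unfold cyc
  rw [map_inv, toAdd_inv]

omit [Fintype E] in
private theorem cyc_mul (v w : FreeGroup E) (e : E) : cyc (v * w) e = cyc v e + cyc w e := by
  unfold cyc
  rw [map_mul, toAdd_mul]

theorem cyc_sum (φ : FreeGroup E →* Multiplicative ℚ) (w : FreeGroup E) :
    (φ w).toAdd = ∑ e, cyc w e * (φ (FreeGroup.of e)).toAdd := by
  induction w using FreeGroup.induction_on with
  | C1 => simp [cyc_one]
  | of e' => simp [cyc_of]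
  | inv_of e' ih =>
    rw [map_inv, toAdd_inv, ih, ← Finset.sum_neg_distrib]
    refine Finset.sum_congr rfl fun e _ => ?_
    rw [cyc_inv, neg_mul]
  | mul v w hv hw =>
    rw [map_mul, toAdd_mul, hv, hw, ← Finset.sum_add_distrib]
    refine Finset.sum_congr rfl fun e _ => ?_
    rw [cyc_mul, add_mul]

theorem sum_TT (Γ : LOT V E) (f : V → ℚ) (w : FreeGroup E) :
    (TT Γ (fun v => Multiplicative.ofAdd (f v)) w).toAdd =
      ∑ e, cyc w e * (f (Γ.term e) - f (Γ.lab e)) := by
  rw [cyc_sum]
  refine Finset.sum_congr rfl fun e _ => ?_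
  unfold TT
  rw [FreeGroup.lift_apply_of, toAdd_mul, toAdd_inv, toAdd_ofAdd, toAdd_ofAdd, sub_eq_add_neg]

private theorem sum_II (Γ : LOT V E) (f : V → ℚ) (w : FreeGroup E) :
    (II Γ (fun v => Multiplicative.ofAdd (f v)) w).toAdd =
      ∑ e, cyc w e * (f (Γ.init e) - f (Γ.lab e)) := by
  rw [cyc_sum]
  refine Finset.sum_congr rfl fun e _ => ?_
  unfold II
  rw [FreeGroup.lift_apply_of, toAdd_mul, toAdd_inv, toAdd_ofAdd, toAdd_ofAdd, neg_add_eq_sub]

theorem cyc_closed {Γ : LOT V E} {J ι : Type} (h : GPt Γ J ι) (i : ι) (f : V → ℚ) :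
    ∑ e, cyc (h.l i) e * (f (Γ.init e) - f (Γ.lab e)) = 0 := by
  rw [← sum_II, h.closed, toAdd_one]

theorem indep_expv {Γ : LOT V E} {J ι : Type} [Fintype J] [Fintype ι] (h : GPt Γ J ι)
    (h1 : LinearIndependent ℚ fun i => cyc (h.l i)) (h2 : Indep Γ) :
    LinearIndependent ℚ fun i => expv h i := by
  rw [Fintype.linearIndependent_iff] at h1 ⊢
  intro a ha
  apply h1 a
  have key : ∀ F : E → ℚ, ∑ e, (∑ i, a i • cyc (h.l i)) e * F e =
      ∑ i, a i * ∑ e, cyc (h.l i) e * F e := by
    intro F
    have e1 : ∀ e, (∑ i, a i • cyc (h.l i)) e * F e = ∑ i, a i * (cyc (h.l i) e * F e) := by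
      intro e
      rw [Finset.sum_apply, Finset.sum_mul]
      refine Finset.sum_congr rfl fun i _ => ?_
      rw [Pi.smul_apply, smul_eq_mul, mul_assoc]
    simp only [e1]
    rw [Finset.sum_comm]
    refine Finset.sum_congr rfl fun i _ => ?_
    rw [Finset.mul_sum]
  apply h2
  · intro f
    rw [key]
    refine Finset.sum_eq_zero fun i _ => ?_
    rw [cyc_closed, mul_zero]
  · intro f hf
    have hI : ∀ w, II Γ (fun v => Multiplicative.ofAdd (f v)) w = 1 := by
      intro w
      have h3 : II Γ (fun v => Multiplicative.ofAdd (f v)) = 1 := by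
        apply FreeGroup.ext_hom
        intro e
        unfold II
        rw [FreeGroup.lift_apply_of]
        beta_reduce
        rw [hf e, inv_mul_cancel, MonoidHom.one_apply]
      rw [h3, MonoidHom.one_apply]
    have hfk : ∀ v, f v = f (h.b (h.κ v)) := by
      intro v
      have h3 := h.const (Multiplicative ℚ) (fun v => Multiplicative.ofAdd (f v)) v
        (h.b (h.κ v)) (h.hb (h.κ v)).symm
      rw [hI, hI, inv_one, mul_one, mul_one] at h3
      exact Multiplicative.ofAdd.injective h3
    have hfs : ∀ v, f v = ∑ k, f (h.b k) * (if h.κ v = k then 1 else 0) := by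
      intro v
      simp only [mul_ite, mul_one, mul_zero, Finset.sum_ite_eq, Finset.mem_univ, if_true]
      exact hfk v
    rw [key]
    have e2 : ∀ i, ∑ e, cyc (h.l i) e * (f (Γ.term e) - f (Γ.lab e)) =
        ∑ k, f (h.b k) * expv h i k := by
      intro i
      unfold expv
      simp only [Finset.mul_sum]
      rw [Finset.sum_comm]
      refine Finset.sum_congr rfl fun e _ => ?_
      rw [hfs (Γ.term e), hfs (Γ.lab e), ← Finset.sum_sub_distrib, Finset.mul_sum]
      refine Finset.sum_congr rfl fun k _ => ?_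
      ring
    simp only [e2, Finset.mul_sum]
    rw [Finset.sum_comm]
    refine Finset.sum_eq_zero fun k _ => ?_
    have h3 := congrFun ha k
    rw [Finset.sum_apply] at h3
    have e3 : ∀ i, a i * (f (h.b k) * expv h i k) = f (h.b k) * (a i • expv h i) k := by
      intro i
      rw [Pi.smul_apply, smul_eq_mul]
      ring
    simp only [e3]
    rw [← Finset.mul_sum, h3, Pi.zero_apply, mul_zero]

end Pool.Agent.LThin
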