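import Pool.Agent.Lib.LThin.GSplit
import Pool.Agent.Lib.LThin.IndL
import Pool.Agent.Lib.TwLI.VHow

/-!
# Independent relators: the levels below embed (Howie)

`P n = PQ (Top.nil Γ) B n`, `j = jQ (Top.nil Γ) B`, `q = qQ (Top.nil Γ) B`.
PROOF. `S` from `gsplit h B n`, `S'` from `gsplit h B (n+1)`. `Q = (j n).range`, a subgroup of `P (n+1)`, `LI Q` (`LI.of_injective`), so `LIA.LocallyIndicable Q` (`LI.surj`). `γ v : Q` = `j n (q n (TT Γ (xg Γ n last) (h.g v)))`, so
`q (n+1) (xg Γ (n+1) last v) = S.z (h.κ v) * γ v`. `R i : FreeGroup (Q ⊕ J)`, `R i = TT Γ (fun v => of (inr (h.κ v)) * of (inl (γ v))) (h.l i)`.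
(1) `LIA.expo (R i) = expv h i` as functions `J → ℚ` (`TT` and `expo` are homomorphisms; the letter `inl` has exponent vector `0`; `cyc_sum`, or: both sides are additive in the word `h.l i`, which may be replaced by an arbitrary `w : FreeGroup E`, and
    `FreeGroup.induction_on`). So `LinearIndependent ℚ fun i => LIA.expo (R i)` (`LinearIndependent.of_comp` with the linear map `Finsupp → functions`).
(2) `LIA.howie _ R _` : `Q → RG`, `b ↦ mk (inl b)` is injective, `RG = LIA.RelGrp (id : Q → Q) R`.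
(3) `f₀ : P n →* RG`, `p ↦ mk (inl (j n p))` kills `q n (rJ h n i)` (`S.kill`); `S.univ` with `u k = mk (inr (of k))` gives `f : P (n+1) →* RG` with `f b = mk (inl b)` for `b ∈ Q` and `f (S.z k) = mk (inr (of k))`, so `f (q (n+1) (xg (n+1) last v)) = mk (inr (of (κ v))) * mk (inl (γ v))`
    and `f (q (n+1) (rJ h (n+1) i)) = TT Γ (fun v => …) (h.l i) = mk (LIA.rval id (R i)) = 1` (`map_TT` for `f ∘ q` and for `mk ∘ rval id`; `Subgroup.subset_normalClosure`).
(4) `S'.univ` for `f` and any `u` gives `F : P (n+2) →* RG`, `F (j (n+1) b) = f b`. If `j (n+1) (j n p) = 1` then `mk (inl (j n p)) = f (j n p) = 1`, so `j n p = 1` by (2).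
-/

set_option autoImplicit false

open scoped Classical

namespace Pool.Agent.LThin

open Pool.Agent.LOTI Pool.Agent.LTree

variable {V E : Type} [Fintype V] [Fintype E]

private theorem hj_expo {Γ : LOT V E} {J Q : Type} [Fintype J] [Group Q] (κ : V → J) (γ : V → Q)
    (w : FreeGroup E) (k : J) :
    LIA.expo (TT Γ (fun v => FreeGroup.of (Sum.inr (κ v)) * FreeGroup.of (Sum.inl (γ v)) :
      V → FreeGroup (Q ⊕ J)) w) k =
      ∑ e, cyc w e * ((if κ (Γ.term e) = k then 1 else 0) - (if κ (Γ.lab e) = k then 1 else 0)) := by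
  let χ : FreeGroup (Q ⊕ J) →* Multiplicative (J →₀ ℚ) :=
    FreeGroup.lift (Sum.elim (fun _ => (1 : Multiplicative (J →₀ ℚ)))
      fun x => Multiplicative.ofAdd (Finsupp.single x 1))
  let ev : Multiplicative (J →₀ ℚ) →* Multiplicative ℚ :=
    AddMonoidHom.toMultiplicative (Finsupp.applyAddHom k)
  have h1 : LIA.expo (TT Γ (fun v => FreeGroup.of (Sum.inr (κ v)) * FreeGroup.of (Sum.inl (γ v)) :
      V → FreeGroup (Q ⊕ J)) w) k = ((ev.comp χ) (TT Γ (fun v => FreeGroup.of (Sum.inr (κ v)) *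
        FreeGroup.of (Sum.inl (γ v)) : V → FreeGroup (Q ⊕ J)) w)).toAdd := rfl
  rw [h1, map_TT]
  have h2 : (fun v => (ev.comp χ) (FreeGroup.of (Sum.inr (κ v)) *
      FreeGroup.of (Sum.inl (γ v)))) =
      fun v => Multiplicative.ofAdd (if κ v = k then (1 : ℚ) else 0) := by
    funext v
    rw [map_mul, MonoidHom.comp_apply, MonoidHom.comp_apply]
    have e1 : χ (FreeGroup.of (Sum.inr (κ v))) = Multiplicative.ofAdd (Finsupp.single (κ v) 1) := by
      change FreeGroup.lift _ _ = _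
      rw [FreeGroup.lift_apply_of]
      rfl
    have e2 : χ (FreeGroup.of (Sum.inl (γ v))) = 1 := by
      change FreeGroup.lift _ _ = _
      rw [FreeGroup.lift_apply_of]
      rfl
    rw [e1, e2, map_one, mul_one]
    change Multiplicative.ofAdd ((Finsupp.single (κ v) (1 : ℚ)) k) = _
    rw [Finsupp.single_apply]
  rw [h2]
  exact sum_TT Γ (fun v => if κ v = k then (1 : ℚ) else 0) w

theorem howJ {Γ : LOT V E} {J ι : Type} [Fintype J] (h : GPt Γ J ι)
    (hind : LinearIndependent ℚ fun i => expv h i) (B : Bot Γ) (n : ℕ)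
    (hLI : LI (PQ (Top.nil Γ) B (n + 1))) (p : PQ (Top.nil Γ) B n)
    (hp : jQ (Top.nil Γ) B (n + 1) (jQ (Top.nil Γ) B n p) = 1) :
    jQ (Top.nil Γ) B n p = 1 := by
  obtain ⟨S, hS⟩ := gsplit h B n
  obtain ⟨S', -⟩ := gsplit h B (n + 1)
  let Q : Subgroup (PQ (Top.nil Γ) B (n + 1)) := (jQ (Top.nil Γ) B n).range
  have hQ : LIA.LocallyIndicable Q := by
    intro H hfg hH
    exact LI.surj (LI.of_injective Q.subtype Subtype.val_injective hLI) H hfg hH
  let ρ : PQ (Top.nil Γ) B n →* Q := (jQ (Top.nil Γ) B n).rangeRestrict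
  let γ : V → Q := fun v => ρ (qQ (Top.nil Γ) B n (TT Γ (xg Γ n (Fin.last n)) (h.g v)))
  let R : ι → FreeGroup (Q ⊕ J) := fun i =>
    TT Γ (fun v => FreeGroup.of (Sum.inr (h.κ v)) * FreeGroup.of (Sum.inl (γ v))) (h.l i)
  have hR : LinearIndependent ℚ fun i => LIA.expo (R i) := by
    refine LinearIndependent.of_comp (Finsupp.linearEquivFunOnFinite ℚ ℚ J).toLinearMap ?_
    have e : (⇑(Finsupp.linearEquivFunOnFinite ℚ ℚ J).toLinearMap ∘ fun i => LIA.expo (R i)) =
        fun i => expv h i := by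
      funext i k
      change LIA.expo (R i) k = expv h i k
      exact hj_expo h.κ γ (h.l i) k
    rw [e]
    exact hind
  have hinj := LIA.howie hQ R hR
  let mk : Monoid.Coprod Q (FreeGroup J) →* LIA.RelGrp (id : Q → Q) R :=
    QuotientGroup.mk' (Subgroup.normalClosure (Set.range fun i => LIA.rval (id : Q → Q) (R i)))
  let f₀ : PQ (Top.nil Γ) B n →* LIA.RelGrp (id : Q → Q) R :=
    (mk.comp Monoid.Coprod.inl).comp ρ
  have hf₀ : ∀ p, f₀ p = mk (Monoid.Coprod.inl (ρ p)) := fun _ => rfl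
  have hρ : ∀ p, jQ (Top.nil Γ) B n p = 1 → ρ p = 1 := fun p hp => Subtype.ext hp
  obtain ⟨f, hf1, hf2⟩ := S.univ _ f₀ (fun k => mk (Monoid.Coprod.inr (FreeGroup.of k)))
    (fun i => by rw [hf₀, hρ _ (S.kill i), map_one, map_one])
  have hfx : ∀ v, f (qQ (Top.nil Γ) B (n + 1) (xg Γ (n + 1) (Fin.last (n + 1)) v)) =
      mk (Monoid.Coprod.inr (FreeGroup.of (h.κ v))) * mk (Monoid.Coprod.inl (γ v)) := by
    intro v
    rw [hS, map_mul, hf1, hf2, hf₀]
  have hfr : ∀ i, f (qQ (Top.nil Γ) B (n + 1) (rJ h (n + 1) i)) = 1 := by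
    intro i
    have e1 : f (qQ (Top.nil Γ) B (n + 1) (rJ h (n + 1) i)) =
        TT Γ (fun v => mk (Monoid.Coprod.inr (FreeGroup.of (h.κ v))) *
          mk (Monoid.Coprod.inl (γ v))) (h.l i) := by
      have := map_TT Γ (f.comp (qQ (Top.nil Γ) B (n + 1)))
        (xg Γ (n + 1) (Fin.last (n + 1))) (h.l i)
      simp only [MonoidHom.comp_apply, hfx] at this
      exact this
    have e2 : mk (LIA.rval (id : Q → Q) (R i)) =
        TT Γ (fun v => mk (Monoid.Coprod.inr (FreeGroup.of (h.κ v))) *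
          mk (Monoid.Coprod.inl (γ v))) (h.l i) := by
      have := map_TT Γ (mk.comp (LIA.rval (id : Q → Q)))
        (fun v => FreeGroup.of (Sum.inr (h.κ v)) * FreeGroup.of (Sum.inl (γ v)) :
          V → FreeGroup (Q ⊕ J)) (h.l i)
      have e3 : ∀ v, (mk.comp (LIA.rval (id : Q → Q))) (FreeGroup.of (Sum.inr (h.κ v)) *
          FreeGroup.of (Sum.inl (γ v))) =
          mk (Monoid.Coprod.inr (FreeGroup.of (h.κ v))) * mk (Monoid.Coprod.inl (γ v)) := by
        intro v
        rw [map_mul, MonoidHom.comp_apply, MonoidHom.comp_apply]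
        have e4 : LIA.rval (id : Q → Q) (FreeGroup.of (Sum.inr (h.κ v))) =
            Monoid.Coprod.inr (FreeGroup.of (h.κ v)) := by
          change FreeGroup.lift _ _ = _
          rw [FreeGroup.lift_apply_of]
          rfl
        have e5 : LIA.rval (id : Q → Q) (FreeGroup.of (Sum.inl (γ v)) : FreeGroup (Q ⊕ J)) =
            Monoid.Coprod.inl (γ v) := by
          change FreeGroup.lift _ _ = _
          rw [FreeGroup.lift_apply_of]
          rfl
        rw [e4, e5]
      simp only [e3] at this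
      exact this
    rw [e1, ← e2]
    exact (QuotientGroup.eq_one_iff _).2 (Subgroup.subset_normalClosure ⟨i, rfl⟩)
  obtain ⟨F, hF1, -⟩ := S'.univ _ f (fun _ => 1) hfr
  have h1 : f (jQ (Top.nil Γ) B n p) = 1 := by
    rw [← hF1, hp, map_one]
  rw [hf1, hf₀] at h1
  have h2 : (QuotientGroup.mk (Monoid.Coprod.inl (ρ p)) : LIA.RelGrp (id : Q → Q) R) =
      QuotientGroup.mk (Monoid.Coprod.inl 1) := by
    rw [map_one]
    exact h1
  have h3 : ρ p = 1 := hinj h2
  exact congrArg Subtype.val h3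

end Pool.Agent.LThin
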