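import Pool.Agent.Lib.LThin.GDefs

/-!
# `P (n + 1) = P n / <<r_n>> * F(z false, z true)`

`P n = PQ (Etop h) B n`, `q = qQ (Etop h) B`, `r_n = q (rJ h n 0)`: the relators `rJ h n i.succ` are killed in `P n` (`qQ_W`, `Etop`), and they eliminate the letters `2, …, c + 1` one level higher.
As `LTree.xsplit` (module LTree/XSplit, please copy) with the following changes. Write `x = xg Γ n (Fin.last n)`, `x' = xg Γ (n+1) (Fin.last (n+1))`, `T = TT Γ x`, `I' = II Γ x'`; `II_last : I' w = jj (T w)`.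
PROOF. `ζ k = q (x' (h.b k) * (I' (h.g (h.b k)))⁻¹)` for `k : Fin (c+2)`, `z false = ζ 0`, `z true = ζ 1`, `γ v = q (I' (h.g v)) = jQ (q (T (h.g v)))`. `h.const` with `f = x'`, `v`, `h.b (h.κ v)`: `q (x' v) = ζ (κ v) * γ v`. So
`TT Γ (fun v => ζ (κ v) * γ v) (h.l i.succ) = q (rJ h (n+1) i.succ) = 1` (`map_TT`, `qQ_W`): `ζ` is THE solution of `Elim` for `γ`, `u false = ζ 0`, `u true = ζ 1`.
* `kill`: `jQ (q (rJ h n 0)) = q (jj (rJ h n 0)) = 1` (`jj_rJ`).
* `gen`: let `jQ p ∈ H` for all `p`, `z i ∈ H`. Then `γ v ∈ H`. Apply `he` with `Y = H` (the subgroup), `γ`, `u = z` (as elements of `H`): a solution `ζH : Fin (c+2) → H`; its image in `P (n+1)` is a solution (`map_TT` for `H.subtype`), so it is `ζ`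
  (uniqueness in `he` for `Y = P (n+1)`): `ζ k ∈ H` for all `k`, `q (x' v) ∈ H`. Then `H.comap (q (n+1)) = ⊤` by `xg_gen` (`Fin.lastCases`), and `q` is onto.
* `univ`: `f' = f.comp (q n)`, `f' (rJ h n 0) = 1` by hypothesis, `f' (rJ h n i.succ) = 1` (`qQ_W`), so `f'.comp T` kills all `h.l i` (`Fin.cases`) and `h.pot` applies. Let `ζ'` be the solution of `he` for `Y`, `γ v = f' (T (h.g v))`, `u`.
  `xg_univ Γ (n+1)` with `d.castSucc, v ↦ f' (xg Γ n d v)`, `Fin.last (n+1), v ↦ ζ' (κ v) * f' (T (h.g v))` gives `F₀`; it kills `rJ h (n+1) i.succ` (`map_TT`: the value is `TT Γ (fun v => ζ' (κ v) * γ v) (h.l i.succ) = 1`) and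
  `B.W (n+1) = jj '' B.W n`. `qQ_lift` gives `F`. `F (z false) = ζ' 0 = u false`, `F (z true) = ζ' 1 = u true` (`κ (b k) = k`).
-/

set_option autoImplicit false

open scoped Classical

namespace Pool.Agent.LThin

open Pool.Agent.LOTI Pool.Agent.LTree

variable {V E : Type} [Fintype V] [Fintype E]

/-- the solution one level higher -/
private noncomputable def zt {Γ : LOT V E} {c : ℕ} (h : GPt Γ (Fin (c + 2)) (Fin (c + 1)))
    (B : Bot Γ) (n : ℕ) (k : Fin (c + 2)) : PQ (Etop h) B (n + 1) :=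
  qQ (Etop h) B (n + 1) (xg Γ (n + 1) (Fin.last (n + 1)) (h.b k) *
    (II Γ (xg Γ (n + 1) (Fin.last (n + 1))) (h.g (h.b k)))⁻¹)

private noncomputable def gm {Γ : LOT V E} {c : ℕ} (h : GPt Γ (Fin (c + 2)) (Fin (c + 1)))
    (B : Bot Γ) (n : ℕ) (v : V) : PQ (Etop h) B (n + 1) :=
  qQ (Etop h) B (n + 1) (II Γ (xg Γ (n + 1) (Fin.last (n + 1))) (h.g v))

private theorem gm_eq {Γ : LOT V E} {c : ℕ} (h : GPt Γ (Fin (c + 2)) (Fin (c + 1)))
    (B : Bot Γ) (n : ℕ) (v : V) :
    gm h B n v = jQ (Etop h) B n (qQ (Etop h) B n (TT Γ (xg Γ n (Fin.last n)) (h.g v))) := by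
  rw [jQ_q, gm, II_last]

private theorem zt_gm {Γ : LOT V E} {c : ℕ} (h : GPt Γ (Fin (c + 2)) (Fin (c + 1)))
    (B : Bot Γ) (n : ℕ) (v : V) :
    qQ (Etop h) B (n + 1) (xg Γ (n + 1) (Fin.last (n + 1)) v) =
      zt h B n (h.κ v) * gm h B n v := by
  have h3 := h.const _ (xg Γ (n + 1) (Fin.last (n + 1))) v (h.b (h.κ v)) (h.hb _).symm
  rw [zt, gm, ← map_mul, ← h3, inv_mul_cancel_right]

private theorem rJ_top {Γ : LOT V E} {c : ℕ} (h : GPt Γ (Fin (c + 2)) (Fin (c + 1)))
    (B : Bot Γ) (n : ℕ) (i : Fin c) : qQ (Etop h) B n (rJ h n i.succ) = 1 :=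
  qQ_W _ _ _ _ (Or.inl ⟨i, rfl⟩)

private theorem zt_sol {Γ : LOT V E} {c : ℕ} (h : GPt Γ (Fin (c + 2)) (Fin (c + 1)))
    (B : Bot Γ) (n : ℕ) (i : Fin c) :
    TT Γ (fun v => zt h B n (h.κ v) * gm h B n v) (h.l i.succ) = 1 := by
  have h1 : (fun v => zt h B n (h.κ v) * gm h B n v) =
      fun v => qQ (Etop h) B (n + 1) (xg Γ (n + 1) (Fin.last (n + 1)) v) :=
    funext fun v => (zt_gm h B n v).symm
  rw [h1, ← map_TT]
  exact rJ_top h B (n + 1) i

theorem psplit {Γ : LOT V E} {c : ℕ} (h : GPt Γ (Fin (c + 2)) (Fin (c + 1))) (he : Elim h)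
    (B : Bot Γ) (n : ℕ) :
    Nonempty (Split (jQ (Etop h) B n) (qQ (Etop h) B n (rJ h n 0))) := by
  refine ⟨{
    z := fun i => zt h B n (if i then 1 else 0)
    kill := ?_
    gen := ?_
    univ := ?_ }⟩
  · rw [jQ_q, jj_rJ, map_one]
  · intro H h1 h2
    have hγ : ∀ v, gm h B n v ∈ H := fun v => by
      rw [gm_eq]
      exact h1 _
    have hz0 : zt h B n 0 ∈ H := by
      have := h2 false
      simpa using this
    have hz1 : zt h B n 1 ∈ H := by
      have := h2 true
      simpa using this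
    obtain ⟨ζH, ⟨hζ0, hζ1, hζi⟩, -⟩ := he H (fun v => ⟨gm h B n v, hγ v⟩)
      (fun i => if i then ⟨zt h B n 1, hz1⟩ else ⟨zt h B n 0, hz0⟩)
    have hu := (he (PQ (Etop h) B (n + 1)) (gm h B n)
      (fun i => if i then zt h B n 1 else zt h B n 0)).unique
      (y₁ := zt h B n) (y₂ := fun k => (ζH k : PQ (Etop h) B (n + 1)))
      ⟨by simp, by simp, zt_sol h B n⟩
      ⟨by rw [hζ0]; simp, by rw [hζ1]; simp, fun i => by
        have h4 := congrArg H.subtype (hζi i)
        rw [map_TT, map_one] at h4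
        exact h4⟩
    have hall : ∀ k, zt h B n k ∈ H := fun k => by
      rw [hu]
      exact (ζH k).2
    have htop : H.comap (qQ (Etop h) B (n + 1)) = ⊤ := by
      refine xg_gen Γ (n + 1) _ fun d v => ?_
      rw [Subgroup.mem_comap]
      induction d using Fin.lastCases with
      | last =>
        rw [zt_gm]
        exact H.mul_mem (hall _) (hγ v)
      | cast d =>
        rw [← jj_xg, ← jQ_q]
        exact h1 _
    rw [eq_top_iff]
    intro y _
    obtain ⟨x, rfl⟩ := qQ_surj (Etop h) B (n + 1) y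
    have hx : x ∈ H.comap (qQ (Etop h) B (n + 1)) := by
      rw [htop]
      exact Subgroup.mem_top x
    exact hx
  · intro Y _ f u hf
    set f' : XG Γ n →* Y := f.comp (qQ (Etop h) B n) with hf'
    have hr : ∀ i : Fin (c + 1), f' (rJ h n i) = 1 := by
      intro i
      induction i using Fin.cases with
      | zero => exact hf
      | succ i =>
        rw [hf', MonoidHom.comp_apply, rJ_top, map_one]
    have hpot := h.pot Y (f'.comp (TT Γ (xg Γ n (Fin.last n)))) hr
    obtain ⟨ζ', ⟨hz0, hz1, hzi⟩, -⟩ := he Y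
      (fun v => f' (TT Γ (xg Γ n (Fin.last n)) (h.g v))) u
    obtain ⟨F₀, hF₀⟩ := xg_univ Γ (n + 1) (Y := Y)
      (fun d => Fin.lastCases (motive := fun _ => V → Y)
        (fun v => ζ' (h.κ v) * f' (TT Γ (xg Γ n (Fin.last n)) (h.g v)))
        (fun d v => f' (xg Γ n d v)) d) (by
      intro e d
      induction d using Fin.lastCases with
      | last =>
        rw [Fin.succ_last]
        simp only [Fin.lastCases_last, Fin.lastCases_castSucc]
        have hpe := hpot e
        simp only [MonoidHom.comp_apply, TT, FreeGroup.lift_apply_of] at hpe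
        simp only [TT]
        rw [hpe, h.hκ e, map_mul, map_inv]
        group
      | cast d =>
        rw [Fin.succ_castSucc]
        simp only [Fin.lastCases_castSucc]
        rw [← map_mul, ← map_mul, xg_rel])
    have hFj : ∀ p, F₀ (jj Γ n p) = f' p := by
      intro p
      refine xg_ext Γ n (F := F₀.comp (jj Γ n)) (F' := f') ?_ p
      intro d v
      rw [MonoidHom.comp_apply, jj_xg, hF₀]
      simp only [Fin.lastCases_castSucc]
    have hFl : ∀ v, F₀ (xg Γ (n + 1) (Fin.last (n + 1)) v) =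
        ζ' (h.κ v) * f' (TT Γ (xg Γ n (Fin.last n)) (h.g v)) := by
      intro v
      rw [hF₀]
      simp only [Fin.lastCases_last]
    obtain ⟨F, hF⟩ := qQ_lift (Etop h) B (n + 1) F₀ (by
      rintro _ ⟨i, rfl⟩
      show F₀ (TT Γ (xg Γ (n + 1) (Fin.last (n + 1))) (h.l i.succ)) = 1
      rw [map_TT]
      have h5 : (fun v => F₀ (xg Γ (n + 1) (Fin.last (n + 1)) v)) =
          fun v => ζ' (h.κ v) * f' (TT Γ (xg Γ n (Fin.last n)) (h.g v)) := funext hFl
      rw [h5]
      exact hzi i) (by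
      intro w hw
      rw [← B.up n] at hw
      obtain ⟨w', hw', rfl⟩ := hw
      rw [hFj, hf', MonoidHom.comp_apply, qQ_W (Etop h) B n w' (Or.inr hw'), map_one])
    have hzt : ∀ k, F (zt h B n k) = ζ' k := by
      intro k
      rw [zt, hF, map_mul, map_inv, II_last, hFj, hFl, h.hb, mul_inv_cancel_right]
    refine ⟨F, fun p => ?_, fun i => ?_⟩
    · obtain ⟨x, rfl⟩ := qQ_surj (Etop h) B n p
      rw [jQ_q, hF, hFj]
      rfl
    · cases i with
      | false => simpa using (hzt 0).trans hz0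
      | true => simpa using (hzt 1).trans hz1

end Pool.Agent.LThin
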