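import Pool.Agent.Lib.LThin.GDefs

/-!
# Reversing the edges

`A' , B'` are the images of `B`, `A` under `nu` (a family of elements of the last level of `Γ` is a family of elements of the first level of `Γ.rev`).
PROOF. `Φ n : PQ A B n →* PQ A' B' n`, `q p ↦ q' (nu Γ n p)` (`qQ_lift`: `nu` maps `A.W n` into `B'.W n` and `B.W n` into `A'.W n`, `qQ_W`), `Ψ n : PQ A' B' n →* PQ A B n`, `q' p ↦ q (mu Γ n p)` (`mu_nu`). They are inverse to each other
(`mu_nu`, `nu_mu`, `qQ_surj`); `Φ (jQ p) = sQ' (Φ p)` (`nu_jj`), `Φ (sQ p) = jQ' (Φ p)` (`nu_ss`).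
-/

set_option autoImplicit false

open scoped Classical

namespace Pool.Agent.LThin

open Pool.Agent.LOTI Pool.Agent.LTree

variable {V E : Type} [Fintype V] [Fintype E]

theorem revQ {Γ : LOT V E} {A : Top Γ} {B : Bot Γ} {A' : Top Γ.rev} {B' : Bot Γ.rev}
    (hA : ∀ n, A'.W n = nu Γ n '' B.W n) (hB : ∀ n, B'.W n = nu Γ n '' A.W n) :
    ∃ Φ : ∀ n, PQ A B n ≃* PQ A' B' n,
      (∀ n p, Φ n (qQ A B n p) = qQ A' B' n (nu Γ n p)) ∧
      (∀ n p, Φ (n + 1) (jQ A B n p) = sQ A' B' n (Φ n p)) ∧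
      ∀ n p, Φ (n + 1) (sQ A B n p) = jQ A' B' n (Φ n p) := by
  have key : ∀ n, ∃ Φ : PQ A B n ≃* PQ A' B' n, ∀ p, Φ (qQ A B n p) = qQ A' B' n (nu Γ n p) := by
    intro n
    obtain ⟨F, hF⟩ := qQ_lift A B n ((qQ A' B' n).comp (nu Γ n))
      (fun w hw => qQ_W A' B' n _ (Or.inr (by rw [hB]; exact ⟨w, hw, rfl⟩)))
      (fun w hw => qQ_W A' B' n _ (Or.inl (by rw [hA]; exact ⟨w, hw, rfl⟩)))
    obtain ⟨G, hG⟩ := qQ_lift A' B' n ((qQ A B n).comp (mu Γ n))
      (fun w hw => by
        rw [hA] at hw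
        obtain ⟨v, hv, rfl⟩ := hw
        rw [MonoidHom.comp_apply, mu_nu]
        exact qQ_W A B n v (Or.inr hv))
      (fun w hw => by
        rw [hB] at hw
        obtain ⟨v, hv, rfl⟩ := hw
        rw [MonoidHom.comp_apply, mu_nu]
        exact qQ_W A B n v (Or.inl hv))
    have hGF : G.comp F = MonoidHom.id _ := by
      apply MonoidHom.ext
      intro x
      obtain ⟨p, rfl⟩ := qQ_surj A B n x
      rw [MonoidHom.comp_apply, hF, MonoidHom.comp_apply, hG, MonoidHom.comp_apply, mu_nu,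
        MonoidHom.id_apply]
    have hFG : F.comp G = MonoidHom.id _ := by
      apply MonoidHom.ext
      intro x
      obtain ⟨p, rfl⟩ := qQ_surj A' B' n x
      rw [MonoidHom.comp_apply, hG, MonoidHom.comp_apply, hF, MonoidHom.comp_apply, nu_mu,
        MonoidHom.id_apply]
    exact ⟨MonoidHom.toMulEquiv F G hGF hFG, fun p => hF p⟩
  choose Φ hΦ using key
  refine ⟨Φ, hΦ, ?_, ?_⟩
  · intro n x
    obtain ⟨p, rfl⟩ := qQ_surj A B n x
    rw [jQ_q, hΦ, hΦ, sQ_q, nu_jj]
  · intro n x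
    obtain ⟨p, rfl⟩ := qQ_surj A B n x
    rw [sQ_q, hΦ, hΦ, jQ_q, nu_ss]

/-- transport of `Split` along isomorphisms -/
theorem split_iso {P A P' A' : Type} [Group P] [Group A] [Group P'] [Group A'] (j : P →* A)
    (j' : P' →* A') (α : P ≃* P') (β : A ≃* A') (h : ∀ p, β (j p) = j' (α p)) (r : P) (r' : P')
    (hr : α r = r') (S : Split j' r') : Nonempty (Split j r) := by
  refine ⟨⟨fun i => β.symm (S.z i), ?_, ?_, ?_⟩⟩
  · apply β.injective
    rw [h, hr, S.kill, map_one]
  · intro H hj hz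
    have hH := S.gen (H.comap β.symm.toMonoidHom) (fun p' => by
      show β.symm (j' p') ∈ H
      have e : β.symm (j' p') = j (α.symm p') := by
        apply β.injective
        rw [MulEquiv.apply_symm_apply, h, MulEquiv.apply_symm_apply]
      rw [e]
      exact hj _) (fun i => hz i)
    rw [eq_top_iff]
    intro a _
    have h1 : β a ∈ H.comap β.symm.toMonoidHom := by
      rw [hH]
      trivial
    have h2 : β.symm (β a) ∈ H := h1
    rwa [MulEquiv.symm_apply_apply] at h2
  · intro Y _ f u hf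
    obtain ⟨F, hF1, hF2⟩ := S.univ Y (f.comp α.symm.toMonoidHom) u (by
      show f (α.symm r') = 1
      rw [← hr, MulEquiv.symm_apply_apply, hf])
    refine ⟨F.comp β.toMonoidHom, fun p => ?_, fun i => ?_⟩
    · show F (β (j p)) = f p
      rw [h, hF1]
      show f (α.symm (α p)) = f p
      rw [MulEquiv.symm_apply_apply]
    · show F (β (β.symm (S.z i))) = u i
      rw [MulEquiv.apply_symm_apply, hF2]

/-- transport of `SplitJ` along isomorphisms -/
theorem splitJ_iso {P A P' A' ι J : Type} [Group P] [Group A] [Group P'] [Group A']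
    (j : P →* A) (j' : P' →* A') (α : P ≃* P') (β : A ≃* A') (h : ∀ p, β (j p) = j' (α p))
    (r' : ι → P') (S : SplitJ j' r' J) :
    Nonempty (SplitJ j (fun i => α.symm (r' i)) J) := by
  refine ⟨⟨fun i => β.symm (S.z i), ?_, ?_, ?_⟩⟩
  · intro i
    apply β.injective
    rw [h, MulEquiv.apply_symm_apply, S.kill, map_one]
  · intro H hj hz
    have hH := S.gen (H.comap β.symm.toMonoidHom) (fun p' => by
      show β.symm (j' p') ∈ H
      have e : β.symm (j' p') = j (α.symm p') := by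
        apply β.injective
        rw [MulEquiv.apply_symm_apply, h, MulEquiv.apply_symm_apply]
      rw [e]
      exact hj _) (fun i => hz i)
    rw [eq_top_iff]
    intro a _
    have h1 : β a ∈ H.comap β.symm.toMonoidHom := by
      rw [hH]
      trivial
    have h2 : β.symm (β a) ∈ H := h1
    rwa [MulEquiv.symm_apply_apply] at h2
  · intro Y _ f u hf
    obtain ⟨F, hF1, hF2⟩ := S.univ Y (f.comp α.symm.toMonoidHom) u (fun i => hf i)
    refine ⟨F.comp β.toMonoidHom, fun p => ?_, fun i => ?_⟩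
    · show F (β (j p)) = f p
      rw [h, hF1]
      show f (α.symm (α p)) = f p
      rw [MulEquiv.symm_apply_apply]
    · show F (β (β.symm (S.z i))) = u i
      rw [MulEquiv.apply_symm_apply, hF2]

end Pool.Agent.LThin
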