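import Pool.Agent.Lib.LTree.Step

/-!
# The induction step if the functions of the shifted side come from free splittings

PROOFS.
* `dd_le_of_tree`: a generator of `DD k L` is a `φ` with a tree `S`, `S.Has L`, and `μ : S.V → k`, `μ (g • v) = μ v + φ g`. `LTree.blow T S L` (the vertex stabilisers of `T` meet `L` trivially) gives `R`, `R.Has ⊥`, `f : R.Hom S`; `μ ∘ f.fV` shows
  `φ ∈ DD k ⊥` (`Submodule.subset_span`, `f.fV_smul`); `Submodule.span_le`. (See `exch_one` in LTree/Exch.)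
* `stepT`: `NPow r` from `npow_of` and `exists_hom` as in `LTree.step`. If `r` is not elliptic in some `T`, `T.Has ⊥`: `ft hP T hT r _ _` and `split_LI j r hj`. Otherwise `AllEll ⊥ r`, and `DD ℚ ⊥ ≤ DD ℚ <<r>>` by `dd_of_ell` (for every generator).
  Then as in the private lemma `contra` of LTree/Step (please copy it and its lemma `zfun`) with the ROLES of `j` and `σ` exchanged: `DE = DD ℚ <<r>>`: `φ ∘ j ∈ DD ℚ j.ker = DD ℚ <<r>>` (`dd_res`, `split_ker`), `φ ∘ σ ∈ DD ℚ σ.ker ≤ DD ℚ ⊥ ≤ DD ℚ <<r>>`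
  (`dd_res`, `hD`); `dd_dim j <<r>> ζ hj.z` (with the functions `zfun ℚ j r hj`, `dd_ext j r hj`): `finrank <<r>> + 2 ≤ finrank A`; `dd_pencil j σ … a₀`: `finrank A ≤ finrank <<r>> + 1`. Contradiction.
* `stepA`: the first alternative in `stepT`.
-/

set_option autoImplicit false

open scoped Classical

namespace Pool.Agent.LThin

open Pool.Agent.LOTI Pool.Agent.LTree

variable {P A : Type} [Group P] [Group A]

/-- the coordinate functions of the free generators -/
private theorem zfunT (k : Type) [Field k] (σ : P →* A) (s : P) (hσ : Split σ s) (i : Bool) :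
    ∃ ζ ∈ DD k (⊥ : Subgroup A), (∀ p, ζ (σ p) = 0) ∧
      ∀ i', ζ (hσ.z i') = if i = i' then 1 else 0 := by
  obtain ⟨F, hF, hz⟩ := hσ.univ (Multiplicative k) 1
    (fun i' => Multiplicative.ofAdd (if i = i' then 1 else 0)) rfl
  refine ⟨fun a => (F a).toAdd, ?_, fun p => ?_, fun i' => ?_⟩
  · obtain ⟨T, hT, -, -, h4⟩ := bs σ s hσ
    obtain ⟨μ, hμ⟩ := h4 k (fun a => (F a).toAdd)
      (fun g h => by
        show (F (g * h)).toAdd = _
        rw [map_mul, toAdd_mul])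
      (fun p => by
        show (F (σ p)).toAdd = 0
        rw [hF]
        rfl)
    exact Submodule.subset_span ⟨T, hT, μ, hμ⟩
  · show (F (σ p)).toAdd = 0
    rw [hF]
    rfl
  · show (F (hσ.z i')).toAdd = _
    rw [hz, toAdd_ofAdd]

theorem dd_le_of_tree (k : Type) [Field k] (T : GTree P) (hT : T.Has ⊥) (L : Subgroup P)
    (h : ∀ (v : T.V) (g : P), g • v = v → g ∈ L → g = 1) :
    DD k L ≤ DD k (⊥ : Subgroup P) := by
  refine Submodule.span_le.2 ?_
  rintro φ ⟨S, hS, μ, hμ⟩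
  obtain ⟨R, hR, ⟨f⟩, -⟩ := blow T S L hT hS h
  refine Submodule.subset_span ⟨R, hR, fun v => μ (f.fV v), fun g v => ?_⟩
  show μ (f.fV (g • v)) = μ (f.fV v) + φ g
  rw [f.fV_smul, hμ]

theorem npow_pencil [Group.FG P] (j σ : P →* A) (r : P) (hj : Split j r) (a₀ : A)
    (pencil : ∀ (k : Type) [Field k], ∀ φ ∈ HH k A, (∀ p, φ (j p) = φ (σ p)) → φ a₀ = 0 → φ = 0) :
    NPow r := by
  exact npow_of r (fun p hp => by
    let _ := Fact.mk hp
    exact exists_hom (ZMod p) j σ r hj a₀ (pencil (ZMod p)))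

theorem stepA (hP : LI P) (j : P →* A) (r : P) (hj : Split j r) (hr : NPow r)
    (hns : ¬ AllEll (⊥ : Subgroup P) r) : LI A := by
  unfold AllEll at hns
  push Not at hns
  obtain ⟨T, hT, hT'⟩ := hns
  exact split_LI j r hj (ft hP T hT r hT' hr).1

theorem stepT [Group.FG P] (hP : LI P) (j σ : P →* A) (r : P) (hj : Split j r) (a₀ : A)
    (pencil : ∀ (k : Type) [Field k], ∀ φ ∈ HH k A, (∀ p, φ (j p) = φ (σ p)) → φ a₀ = 0 → φ = 0)
    (hD : DD ℚ σ.ker ≤ DD ℚ (⊥ : Subgroup P)) : LI A := by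
  have hr : NPow r := npow_pencil j σ r hj a₀ pencil
  by_cases hns : AllEll (⊥ : Subgroup P) r
  swap
  · exact stepA hP j r hj hr hns
  exfalso
  have hle : DD ℚ (⊥ : Subgroup P) ≤ DD ℚ (Subgroup.normalClosure ({r} : Set P)) := by
    refine Submodule.span_le.2 ?_
    rintro φ ⟨S, hS, μ, hμ⟩
    exact dd_of_ell S hS r (hns S hS) φ μ hμ
  have : Group.FG A := split_fg j r hj
  have := hh_fd (P := A) ℚ
  have := hh_fd (P := P) ℚ
  have : FiniteDimensional ℚ (DD ℚ (⊥ : Subgroup A)) :=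
    Submodule.finiteDimensional_of_le (dd_le ℚ ⊥)
  have : FiniteDimensional ℚ (DD ℚ (Subgroup.normalClosure ({r} : Set P))) :=
    Submodule.finiteDimensional_of_le (dd_le ℚ _)
  choose ζ h3 h4 h5 using zfunT ℚ j r hj
  have key1 : ∀ φ ∈ DD ℚ (⊥ : Subgroup A), (fun p => φ (j p)) ∈
      DD ℚ (Subgroup.normalClosure ({r} : Set P)) := by
    intro φ hφ
    have := dd_res j φ hφ
    rwa [split_ker j r hj] at this
  have key2 : ∀ φ ∈ DD ℚ (⊥ : Subgroup A), (fun p => φ (σ p)) ∈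
      DD ℚ (Subgroup.normalClosure ({r} : Set P)) := by
    intro φ hφ
    exact hle (hD (dd_res σ φ hφ))
  have d1 := dd_dim j (Subgroup.normalClosure ({r} : Set P)) ζ hj.z key1
    (fun φ hφ => dd_ext j r hj φ hφ) h3 h4 h5
  have d2 := dd_pencil j σ (DD ℚ (⊥ : Subgroup A)) (DD ℚ (Subgroup.normalClosure ({r} : Set P))) a₀
    (fun φ hφ => ⟨key1 φ hφ, key2 φ hφ⟩) (fun φ hφ => pencil ℚ φ (dd_le ℚ ⊥ hφ))
  omega

end Pool.Agent.LThin
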