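import Pool.Agent.Lib.LThin.GDefs
import Pool.Agent.Lib.LOTI.Forest

/-!
# The cycles of a thin LOT

PROOF. `Z = Finset.univ.image d.e`, `c` elements (`d.e` is injective: `d.once`, `d.other`). `d.closed i` is a closed walk which passes `d.e i` exactly once and no other element of `Z`, so
(1) `lab (d.e i)`, `init (d.e i)` are equivalent for the edges outside `Z` (split the walk at the passage of `d.e i`; `IWalk_append`; a walk which passes only edges of `S'` connects its ends in `cst Γ.lab Γ.init S'`); so the classes of `S' = Zᶜ` are those of all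
    edges, i.e. of `Γ.IAdj`, i.e. the fibres of `d.κ` (`d.comp`).
(2) Let `S ⊆ S'` be of maximal cardinality with `S.card + Nat.card (Quotient (cst Γ.lab Γ.init S)) ≤ Fintype.card V` (`comb_max` in LTree/Comb, restricted to subsets of `S'`). As there every `e ∈ S'` has equivalent ends for `S`; so the classes of `S` are the fibres of
    `d.κ`, there are `c + 2` of them (`d.surj`), `S.card + c + 2 = Fintype.card V` (`card_le`), `Γ.card : card V = card E + 1`, so `S'.card = card E - c = S.card + 1`: there is `e₁` with `S' = insert e₁ S`, `e₁ ∉ S`.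
(3) `g : V → FreeGroup E` as in GComb (values in the image of `FreeGroup S`): `g (init e) = g (lab e) * of e` for `e ∈ S`, `cyc (g v) e = 0` for `e ∉ S`. `l 0 = (g (lab e₁))⁻¹ * g (init e₁) * (of e₁)⁻¹`, `l i.succ = wp FreeGroup.of (d.l i)`.
    `κ = d.κ`, `b` a right inverse (`d.surj`).
* `pot`: `f (l 0) = 1` gives the equation for `e₁`, so `f (g (init e)) = f (g (lab e)) * f (of e)` for all `e ∈ S'`. For `e = d.e i`: split the closed walk at the only passage of `d.e i`; the rest of the walk uses only edges of `S'`, so (`wp_walk'`) the product of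
  `f (of e')^(± 1)` along it is `(f (g (start)))⁻¹ * f (g (end))`, and `f (l i.succ) = 1` gives the equation for `d.e i` (both directions of the passage).
* `const`: as in `exists_two` (LTree/Comb): the function is constant on the classes of `S`. `closed`: for `l 0` as there; for `l i.succ`: `II Γ f (wp of (d.l i)) = wp (fun e => (f (lab e))⁻¹ * f (init e)) (d.l i)` is `(f (b i))⁻¹ * f (b i) = 1` for a closed walk
  (`wp_walk`/`wp_walk'` in LOTI/LDefs with `g = f`).
* linear independence: `cyc (l i.succ) (d.e k) = ± (if i = k then 1 else 0)` (`d.once`, `d.other`), `cyc (l 0) (d.e k) = 0`, `cyc (l 0) e₁ = -1`. If `∑ a i • cyc (l i) = 0`, evaluate at `d.e k`: `a k.succ = 0`; then at `e₁`: `a 0 = 0`.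
-/

set_option autoImplicit false

open scoped Classical

namespace Pool.Agent.LThin

open Pool.Agent.LOTI Pool.Agent.LTree

variable {V E : Type} [Fintype V] [Fintype E]

omit [Fintype V] [Fintype E] in
private theorem tcomb_mono {a b : E → V} {S T : Finset E} (hST : S ⊆ T) {v w : V}
    (h : (cst a b S) v w) : (cst a b T) v w := by
  have h1 : ∀ x y, (∃ e ∈ S, x = a e ∧ y = b e) → ∃ e ∈ T, x = a e ∧ y = b e := by
    rintro x y ⟨e, he, hx, hy⟩
    exact ⟨e, hST he, hx, hy⟩
  exact Relation.EqvGen.mono h1 _ _ h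

omit [Fintype V] [Fintype E] in
private theorem tcomb_edge (a b : E → V) {S : Finset E} {e : E} (he : e ∈ S) :
    (cst a b S) (a e) (b e) :=
  Relation.EqvGen.rel _ _ ⟨e, he, rfl, rfl⟩

/-- a subset of `S'` of maximal cardinality without cycles spans all components of `S'` -/
private theorem tcomb_max (a b : E → V) (S' : Finset E) : ∃ S : Finset E, S ⊆ S' ∧
    S.card + Nat.card (Quotient (cst a b S)) ≤ Fintype.card V ∧
      ∀ e ∈ S', (cst a b S) (a e) (b e) := by
  have hne : (S'.powerset.filter fun S : Finset E =>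
      S.card + Nat.card (Quotient (cst a b S)) ≤ Fintype.card V).Nonempty := by
    refine ⟨∅, ?_⟩
    rw [Finset.mem_filter]
    refine ⟨Finset.empty_mem_powerset _, ?_⟩
    rw [Finset.card_empty, zero_add, ← Nat.card_eq_fintype_card]
    exact Nat.card_le_card_of_surjective (fun v => Quotient.mk (cst a b ∅) v)
      Quotient.mk_surjective
  obtain ⟨S, hS, hmax⟩ := Finset.exists_max_image _ Finset.card hne
  rw [Finset.mem_filter, Finset.mem_powerset] at hS
  refine ⟨S, hS.1, hS.2, fun e heS' => ?_⟩
  by_cases he : e ∈ S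
  · exact tcomb_edge a b he
  by_contra hcon
  have hfin : Finite (Quotient (cst a b S)) := Quotient.finite _
  have hfin' : Finite (Quotient (cst a b (insert e S))) := Quotient.finite _
  let f : Quotient (cst a b S) → Quotient (cst a b (insert e S)) :=
    Quotient.map id (fun _ _ h => tcomb_mono (Finset.subset_insert e S) h)
  have hsurj : Function.Surjective f := by
    intro q
    induction q using Quotient.inductionOn with
    | h v => exact ⟨Quotient.mk _ v, rfl⟩
  have hninj : ¬ Function.Injective f := by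
    intro hinj
    have h1 : f (Quotient.mk _ (a e)) = f (Quotient.mk _ (b e)) :=
      Quotient.sound (tcomb_edge a b (Finset.mem_insert_self e S))
    exact hcon (Quotient.exact (hinj h1))
  have hlt : Nat.card (Quotient (cst a b (insert e S))) < Nat.card (Quotient (cst a b S)) := by
    refine lt_of_le_of_ne (Nat.card_le_card_of_surjective f hsurj) ?_
    intro heq
    apply hninj
    have hbij : Function.Bijective f :=
      (Nat.bijective_iff_surjective_and_card f).2 ⟨hsurj, heq.symm⟩
    exact hbij.1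
  have h2 : insert e S ∈ S'.powerset.filter fun S : Finset E =>
      S.card + Nat.card (Quotient (cst a b S)) ≤ Fintype.card V := by
    rw [Finset.mem_filter, Finset.mem_powerset, Finset.card_insert_of_notMem he]
    exact ⟨Finset.insert_subset heS' hS.1, by have := hS.2; omega⟩
  have h3 := hmax _ h2
  rw [Finset.card_insert_of_notMem he] at h3
  omega

/-- a walk which passes only edges of `S'` connects its ends in the components of `S'` -/
private theorem tcomb_walk (Γ : LOT V E) (S' : Finset E) {x y : V} {l : List (E × Bool)}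
    (hl : Γ.IWalk x l y) (h : ∀ s ∈ l, s.1 ∈ S') : (cst Γ.lab Γ.init S') x y := by
  induction l generalizing x with
  | nil =>
    have h1 : x = y := hl
    subst h1
    exact (cst Γ.lab Γ.init S').refl x
  | cons s l ih =>
    obtain ⟨h1, h2⟩ := hl
    have h3 := ih h2 (fun t ht => h t (List.mem_cons_of_mem _ ht))
    have h4 := tcomb_edge Γ.lab Γ.init (h s List.mem_cons_self)
    rw [h1]
    refine (cst Γ.lab Γ.init S').trans ?_ h3
    split_ifs
    · exact h4
    · exact (cst Γ.lab Γ.init S').symm h4

omit [Fintype E] in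
/-- splitting at the only passage -/
private theorem tcomb_split {l : List (E × Bool)} {e : E} (h : (l.map Prod.fst).count e = 1) :
    ∃ (l1 : List (E × Bool)) (t : Bool) (l2 : List (E × Bool)), l = l1 ++ (e, t) :: l2 ∧
      e ∉ l1.map Prod.fst ∧ e ∉ l2.map Prod.fst := by
  have h1 : e ∈ l.map Prod.fst := List.count_pos_iff.1 (by omega)
  obtain ⟨⟨e', t⟩, hs, he⟩ := List.mem_map.1 h1
  have he' : e' = e := he
  subst he'
  obtain ⟨l1, l2, rfl⟩ := List.append_of_mem hs
  refine ⟨l1, t, l2, rfl, ?_, ?_⟩
  · rw [List.map_append, List.count_append, List.map_cons, List.count_cons_self] at h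
    exact List.count_eq_zero.1 (by omega)
  · rw [List.map_append, List.count_append, List.map_cons, List.count_cons_self] at h
    exact List.count_eq_zero.1 (by omega)

omit [Fintype E] in
private theorem tcomb_cyc_mul (w w' : FreeGroup E) (e : E) :
    cyc (w * w') e = cyc w e + cyc w' e := by
  unfold cyc
  rw [map_mul, toAdd_mul]

omit [Fintype E] in
private theorem tcomb_cyc_inv (w : FreeGroup E) (e : E) : cyc w⁻¹ e = - cyc w e := by
  unfold cyc
  rw [map_inv, toAdd_inv]

omit [Fintype E] in
private theorem tcomb_cyc_of (e' e : E) :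
    cyc (FreeGroup.of e') e = if e' = e then 1 else 0 := by
  unfold cyc
  rw [FreeGroup.lift_apply_of]
  rfl

omit [Fintype E] in
private theorem tcomb_cyc_one (e : E) : cyc (1 : FreeGroup E) e = 0 := by
  unfold cyc
  rw [map_one]
  rfl

omit [Fintype E] in
private theorem tcomb_cyc_wp {l : List (E × Bool)} {e : E} (h : e ∉ l.map Prod.fst) :
    cyc (wp FreeGroup.of l) e = 0 := by
  induction l with
  | nil => exact tcomb_cyc_one e
  | cons s l ih =>
    rw [List.map_cons, List.mem_cons, not_or] at h
    rw [wp_cons, tcomb_cyc_mul, ih h.2, add_zero]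
    split_ifs
    · rw [tcomb_cyc_of, if_neg (Ne.symm h.1)]
    · rw [tcomb_cyc_inv, tcomb_cyc_of, if_neg (Ne.symm h.1), neg_zero]

omit [Fintype E] in
private theorem tcomb_cyc_ne {l : List (E × Bool)} {e : E}
    (h : (l.map Prod.fst).count e = 1) : cyc (wp FreeGroup.of l) e ≠ 0 := by
  obtain ⟨l1, t, l2, rfl, h1, h2⟩ := tcomb_split h
  rw [wp_append, wp_cons, tcomb_cyc_mul, tcomb_cyc_mul, tcomb_cyc_wp h1, tcomb_cyc_wp h2]
  simp only [zero_add, add_zero]
  split_ifs
  · rw [tcomb_cyc_of, if_pos rfl]
    exact one_ne_zero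
  · rw [tcomb_cyc_inv, tcomb_cyc_of, if_pos rfl]
    norm_num

/-- a potential with values in the free group on `S` -/
private theorem tcomb_forest (a b : E → V) (S : Finset E)
    (h : S.card + Nat.card (Quotient (cst a b S)) ≤ Fintype.card V) :
    ∃ g : V → FreeGroup E, (∀ e ∈ S, g (b e) = g (a e) * FreeGroup.of e) ∧
      ∀ v, ∀ e ∉ S, cyc (g v) e = 0 := by
  obtain ⟨g, hg⟩ := forest (X := FreeGroup {e // e ∈ S}) a b S h
    (fun e => if he : e ∈ S then FreeGroup.of ⟨e, he⟩ else 1)
  refine ⟨fun v => FreeGroup.map Subtype.val (g v), fun e he => ?_, fun v e he => ?_⟩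
  · show FreeGroup.map Subtype.val (g (b e)) = FreeGroup.map Subtype.val (g (a e)) * FreeGroup.of e
    rw [hg e he, dif_pos he, map_mul, FreeGroup.map.of]
  · unfold cyc
    have h1 : (FreeGroup.lift (fun e' : E => Multiplicative.ofAdd
        (if e' = e then (1 : ℚ) else 0))).comp (FreeGroup.map Subtype.val) =
        (1 : FreeGroup {e // e ∈ S} →* Multiplicative ℚ) := by
      apply FreeGroup.ext_hom
      intro s
      have h0 : s.1 ≠ e := fun h0 => he (by rw [← h0]; exact s.2)
      rw [MonoidHom.comp_apply, FreeGroup.map.of, FreeGroup.lift_apply_of, MonoidHom.one_apply,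
        if_neg h0]
      rfl
    have h2 := congrArg (fun F => F (g v)) h1
    simp only [MonoidHom.comp_apply, MonoidHom.one_apply] at h2
    rw [h2]
    rfl

theorem thin_gpt {Γ : LOT V E} {c : ℕ} (d : ThinData Γ c) :
    ∃ h : GPt Γ (Fin (c + 2)) (Fin (c + 1)), h.κ = d.κ ∧
      (∀ i : Fin c, h.l i.succ = wp FreeGroup.of (d.l i)) ∧
      LinearIndependent ℚ fun i => cyc (h.l i) := by
  -- the edges `d.e i`
  have hmem : ∀ i, d.e i ∈ (d.l i).map Prod.fst := fun i =>
    List.count_pos_iff.1 (by rw [d.once i]; exact one_pos)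
  have hinj : Function.Injective d.e := by
    intro i k hik
    by_contra hne
    apply d.other i k hne
    rw [← hik]
    exact hmem i
  set Z : Finset E := Finset.univ.image d.e with hZ
  have hZcard : Z.card = c := by
    rw [hZ, Finset.card_image_of_injective _ hinj, Finset.card_univ, Fintype.card_fin]
  have hZmem : ∀ i, d.e i ∈ Z := fun i => Finset.mem_image_of_mem _ (Finset.mem_univ i)
  have hZnot : ∀ e, e ∉ Z ↔ ∀ i, e ≠ d.e i := by
    intro e
    rw [hZ, Finset.mem_image]
    constructor
    · intro h i he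
      exact h ⟨i, Finset.mem_univ i, he.symm⟩
    · rintro h ⟨i, -, he⟩
      exact h i he.symm
  -- splitting the closed walks
  have hsplit : ∀ i, ∃ (l1 : List (E × Bool)) (t : Bool) (l2 : List (E × Bool)),
      d.l i = l1 ++ (d.e i, t) :: l2 ∧ (∀ s ∈ l1, s.1 ∈ Zᶜ) ∧ (∀ s ∈ l2, s.1 ∈ Zᶜ) ∧
      Γ.IWalk (d.b i) l1 (if t then Γ.lab (d.e i) else Γ.init (d.e i)) ∧
      Γ.IWalk (if t then Γ.init (d.e i) else Γ.lab (d.e i)) l2 (d.b i) := by
    intro i
    obtain ⟨l1, t, l2, hl, h1, h2⟩ := tcomb_split (d.once i)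
    have hw := d.closed i
    rw [hl, LOT.IWalk_append] at hw
    obtain ⟨x, hx1, hx2, hx3⟩ := hw
    simp only at hx2 hx3
    rw [hx2] at hx1
    refine ⟨l1, t, l2, hl, ?_, ?_, hx1, hx3⟩
    · intro s hs
      rw [Finset.mem_compl, hZnot]
      intro k hk
      by_cases hik : i = k
      · subst hik
        exact h1 (List.mem_map.2 ⟨s, hs, hk⟩)
      · apply d.other i k hik
        rw [hl, List.map_append, List.mem_append]
        exact Or.inl (List.mem_map.2 ⟨s, hs, hk⟩)
    · intro s hs
      rw [Finset.mem_compl, hZnot]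
      intro k hk
      by_cases hik : i = k
      · subst hik
        exact h2 (List.mem_map.2 ⟨s, hs, hk⟩)
      · apply d.other i k hik
        rw [hl, List.map_append, List.mem_append, List.map_cons, List.mem_cons]
        exact Or.inr (Or.inr (List.mem_map.2 ⟨s, hs, hk⟩))
  have hall' : ∀ e, (cst Γ.lab Γ.init Zᶜ) (Γ.lab e) (Γ.init e) := by
    intro e
    by_cases he : e ∈ Z
    · rw [hZ, Finset.mem_image] at he
      obtain ⟨i, -, rfl⟩ := he
      obtain ⟨l1, t, l2, -, h1, h2, h3, h4⟩ := hsplit i
      have h5 := tcomb_walk Γ Zᶜ h3 h1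
      have h6 := tcomb_walk Γ Zᶜ h4 h2
      have h7 := (cst Γ.lab Γ.init Zᶜ).symm ((cst Γ.lab Γ.init Zᶜ).trans h6 h5)
      cases t with
      | true => exact h7
      | false => exact (cst Γ.lab Γ.init Zᶜ).symm h7
    · exact tcomb_edge Γ.lab Γ.init (Finset.mem_compl.2 he)
  -- the maximal forest
  obtain ⟨S, hSS', hS, hSall⟩ := tcomb_max Γ.lab Γ.init Zᶜ
  have htrans : ∀ v w, (cst Γ.lab Γ.init Zᶜ) v w → (cst Γ.lab Γ.init S) v w := by
    intro v w hvw
    have h' : Relation.EqvGen (fun v w => ∃ e ∈ Zᶜ, v = Γ.lab e ∧ w = Γ.init e) v w := hvw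
    clear hvw
    induction h' with
    | rel x y hxy =>
      obtain ⟨e, he, rfl, rfl⟩ := hxy
      exact hSall e he
    | refl x => exact (cst Γ.lab Γ.init S).refl x
    | symm x y _ ih => exact (cst Γ.lab Γ.init S).symm ih
    | trans x y z _ _ ih1 ih2 => exact (cst Γ.lab Γ.init S).trans ih1 ih2
  have hiff : ∀ v w, (cst Γ.lab Γ.init S) v w ↔ Relation.EqvGen Γ.IAdj v w := by
    intro v w
    constructor
    · intro hvw
      refine Relation.EqvGen.mono ?_ v w hvw
      rintro x y ⟨e, -, h1, h2⟩
      exact ⟨e, h1, h2⟩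
    · intro hvw
      induction hvw with
      | rel x y hxy =>
        obtain ⟨e, rfl, rfl⟩ := hxy
        exact htrans _ _ (hall' e)
      | refl x => exact (cst Γ.lab Γ.init S).refl x
      | symm x y _ ih => exact (cst Γ.lab Γ.init S).symm ih
      | trans x y z _ _ ih1 ih2 => exact (cst Γ.lab Γ.init S).trans ih1 ih2
  have hq : Nat.card (Quotient (cst Γ.lab Γ.init S)) = c + 2 := by
    let φ : Quotient (cst Γ.lab Γ.init S) → Fin (c + 2) :=
      Quotient.lift d.κ (fun v w h => (d.comp v w).2 ((hiff v w).1 h))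
    have hφ : Function.Bijective φ := by
      constructor
      · intro q1 q2
        induction q1 using Quotient.inductionOn with
        | h v =>
          induction q2 using Quotient.inductionOn with
          | h w =>
            intro h
            exact Quotient.sound ((hiff v w).2 ((d.comp v w).1 h))
      · intro j
        obtain ⟨v, hv⟩ := d.surj j
        exact ⟨Quotient.mk _ v, hv⟩
    rw [Nat.card_eq_of_bijective φ hφ, Nat.card_eq_fintype_card, Fintype.card_fin]
  have hle := card_le Γ.lab Γ.init S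
  have hcompl : (Zᶜ \ S).card = 1 := by
    have h1 := Finset.card_add_card_compl Z
    have h2 := Γ.card
    have h3 := Finset.card_sdiff_add_card_eq_card hSS'
    rw [hq] at hS hle
    omega
  obtain ⟨e₁, he₁⟩ := Finset.card_eq_one.1 hcompl
  have he₁' : e₁ ∈ Zᶜ \ S := by rw [he₁]; exact Finset.mem_singleton_self _
  rw [Finset.mem_sdiff] at he₁'
  obtain ⟨he₁Z, he₁S⟩ := he₁'
  have he₁Z' := (hZnot e₁).1 (Finset.mem_compl.1 he₁Z)
  have hcase : ∀ e ∈ Zᶜ, e ∈ S ∨ e = e₁ := by
    intro e heZ
    by_cases he : e ∈ S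
    · exact Or.inl he
    · right
      have h1 : e ∈ Zᶜ \ S := Finset.mem_sdiff.2 ⟨heZ, he⟩
      rw [he₁, Finset.mem_singleton] at h1
      exact h1
  have hZS : ∀ i, d.e i ∉ S := fun i h => Finset.mem_compl.1 (hSS' h) (hZmem i)
  obtain ⟨g, hg, hg0⟩ := tcomb_forest Γ.lab Γ.init S hS
  have hcst : ∀ (X : Type) [Group X] (f : V → X) (v w : V), (cst Γ.lab Γ.init S) v w →
      f v * (II Γ f (g v))⁻¹ = f w * (II Γ f (g w))⁻¹ := by
    intro X _ f v w hvw
    have h' : Relation.EqvGen (fun v w => ∃ e ∈ S, v = Γ.lab e ∧ w = Γ.init e) v w := hvw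
    clear hvw
    induction h' with
    | rel x y hxy =>
      obtain ⟨e, he, rfl, rfl⟩ := hxy
      have hof : II Γ f (FreeGroup.of e) = (f (Γ.lab e))⁻¹ * f (Γ.init e) := by
        simp [II]
      rw [hg e he, map_mul, hof]
      group
    | refl x => rfl
    | symm x y _ ih => exact ih.symm
    | trans x y z _ _ ih1 ih2 => exact ih1.trans ih2
  have hκ : ∀ e, d.κ (Γ.lab e) = d.κ (Γ.init e) := fun e =>
    (d.comp _ _).2 (Relation.EqvGen.rel _ _ ⟨e, rfl, rfl⟩)
  have hconst : ∀ (X : Type) [Group X] (f : V → X) (v w : V), d.κ v = d.κ w →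
      f v * (II Γ f (g v))⁻¹ = f w * (II Γ f (g w))⁻¹ := by
    intro X _ f v w hvw
    exact hcst X f v w ((hiff v w).2 ((d.comp v w).1 hvw))
  let L : Fin (c + 1) → FreeGroup E :=
    Fin.cons ((g (Γ.lab e₁))⁻¹ * g (Γ.init e₁) * (FreeGroup.of e₁)⁻¹)
      (fun i => wp FreeGroup.of (d.l i))
  have hL0 : L 0 = (g (Γ.lab e₁))⁻¹ * g (Γ.init e₁) * (FreeGroup.of e₁)⁻¹ := rfl
  have hLs : ∀ i : Fin c, L i.succ = wp FreeGroup.of (d.l i) := fun i => rfl
  have hpot : ∀ (X : Type) [Group X] (f : FreeGroup E →* X), (∀ i, f (L i) = 1) →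
      ∀ e, f (g (Γ.init e)) = f (g (Γ.lab e)) * f (FreeGroup.of e) := by
    intro X _ f hf
    have hf0 := hf 0
    rw [hL0] at hf0
    have hZc : ∀ e ∈ Zᶜ, f (g (Γ.init e)) = f (g (Γ.lab e)) * f (FreeGroup.of e) := by
      intro e he
      rcases hcase e he with he | rfl
      · rw [hg e he, map_mul]
      · rw [map_mul, map_mul, map_inv, map_inv, mul_inv_eq_one] at hf0
        rw [← hf0]
        group
    intro e
    by_cases he : e ∈ Z
    · rw [hZ, Finset.mem_image] at he
      obtain ⟨i, -, rfl⟩ := he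
      obtain ⟨l1, t, l2, hl, h1, h2, h3, h4⟩ := hsplit i
      have hfi := hf i.succ
      rw [hLs, map_wp, hl, wp_append, wp_cons] at hfi
      have h5 := LOT.wp_walk' Γ (g := fun v => f (g v)) (u := fun e => f (FreeGroup.of e))
        (fun s hs => hZc s.1 (h1 s hs)) h3
      have h6 := LOT.wp_walk' Γ (g := fun v => f (g v)) (u := fun e => f (FreeGroup.of e))
        (fun s hs => hZc s.1 (h2 s hs)) h4
      simp only at h5 h6 hfi
      generalize wp (fun e => f (FreeGroup.of e)) l1 = w1 at h5 hfi
      generalize wp (fun e => f (FreeGroup.of e)) l2 = w2 at h6 hfi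
      cases t with
      | true =>
        simp only [if_true] at h5 h6 hfi
        have e1 : w1 = (f (g (d.b i)))⁻¹ * f (g (Γ.lab (d.e i))) := by rw [h5]; group
        have e2 : w2 = (f (g (Γ.init (d.e i))))⁻¹ * f (g (d.b i)) := by rw [h6]; group
        rw [e1, e2] at hfi
        have h7 : f (g (Γ.lab (d.e i))) * f (FreeGroup.of (d.e i)) *
            (f (g (Γ.init (d.e i))))⁻¹ = 1 := by
          have h8 := congrArg (fun z => f (g (d.b i)) * z * (f (g (d.b i)))⁻¹) hfi
          simp only [mul_one, mul_inv_cancel] at h8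
          rw [← h8]
          group
        exact (mul_inv_eq_one.1 h7).symm
      | false =>
        simp only [Bool.false_eq_true, if_false] at h5 h6 hfi
        have e1 : w1 = (f (g (d.b i)))⁻¹ * f (g (Γ.init (d.e i))) := by rw [h5]; group
        have e2 : w2 = (f (g (Γ.lab (d.e i))))⁻¹ * f (g (d.b i)) := by rw [h6]; group
        rw [e1, e2] at hfi
        have h7 : f (g (Γ.init (d.e i))) * (f (FreeGroup.of (d.e i)))⁻¹ *
            (f (g (Γ.lab (d.e i))))⁻¹ = 1 := by
          have h8 := congrArg (fun z => f (g (d.b i)) * z * (f (g (d.b i)))⁻¹) hfi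
          simp only [mul_one, mul_inv_cancel] at h8
          rw [← h8]
          group
        have h9 := mul_inv_eq_one.1 h7
        rw [← h9]
        group
    · exact hZc e (Finset.mem_compl.2 he)
  have hclosed : ∀ (X : Type) [Group X] (f : V → X) (i : Fin (c + 1)), II Γ f (L i) = 1 := by
    intro X _ f i
    have hof : ∀ e, II Γ f (FreeGroup.of e) = (f (Γ.lab e))⁻¹ * f (Γ.init e) := by
      intro e
      simp [II]
    refine Fin.cases ?_ (fun i => ?_) i
    · have h1 := hconst X f _ _ (hκ e₁)
      rw [hL0, map_mul, map_mul, map_inv, map_inv, hof, mul_inv_eq_one]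
      have h2 : (II Γ f (g (Γ.lab e₁)))⁻¹ = (f (Γ.lab e₁))⁻¹ * (f (Γ.init e₁) *
          (II Γ f (g (Γ.init e₁)))⁻¹) := by
        rw [← h1]
        group
      rw [h2]
      group
    · rw [hLs, map_wp]
      simp only [hof]
      have h1 := LOT.wp_walk Γ (g := f) (u := fun e => (f (Γ.lab e))⁻¹ * f (Γ.init e))
        (fun e => by group) (d.closed i)
      exact (mul_eq_left.1 h1.symm)
  have hcyc0 : ∀ e ∉ S, cyc (L 0) e = - (if e₁ = e then 1 else 0) := by
    intro e he
    rw [hL0, tcomb_cyc_mul, tcomb_cyc_mul, tcomb_cyc_inv, tcomb_cyc_inv, hg0 _ e he, hg0 _ e he,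
      tcomb_cyc_of]
    ring
  refine ⟨{
    κ := d.κ
    b := Function.surjInv d.surj
    hb := Function.surjInv_eq d.surj
    g := g
    l := L
    hκ := hκ
    pot := hpot
    const := hconst
    closed := hclosed }, rfl, fun i => rfl, ?_⟩
  show LinearIndependent ℚ fun i => cyc (L i)
  rw [Fintype.linearIndependent_iff]
  intro a ha
  have hk : ∀ k : Fin c, a k.succ = 0 := by
    intro k
    have h1 := congrFun ha (d.e k)
    rw [Finset.sum_apply, Fin.sum_univ_succ, Finset.sum_eq_single k] at h1
    · simp only [Pi.smul_apply, smul_eq_mul, Pi.zero_apply] at h1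
      rw [hcyc0 _ (hZS k), if_neg (he₁Z' k), neg_zero, mul_zero, zero_add, hLs] at h1
      exact (mul_eq_zero.1 h1).resolve_right (tcomb_cyc_ne (d.once k))
    · intro i _ hik
      rw [Pi.smul_apply, smul_eq_mul, hLs, tcomb_cyc_wp (d.other i k hik), mul_zero]
    · intro h
      exact absurd (Finset.mem_univ k) h
  have h0 : a 0 = 0 := by
    have h1 := congrFun ha e₁
    rw [Finset.sum_apply, Fin.sum_univ_succ, Finset.sum_eq_zero] at h1
    · simp only [Pi.smul_apply, smul_eq_mul, Pi.zero_apply] at h1
      rw [hcyc0 _ he₁S, if_pos rfl] at h1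
      linarith
    · intro i _
      rw [hk i, zero_smul, Pi.zero_apply]
  intro i
  refine Fin.cases h0 hk i

end Pool.Agent.LThin
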