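import Pool.Agent.Lib.LThin.GDefs

/-!
# Elimination of components

PROOF. `TT Γ f (wp FreeGroup.of L) = wp (fun e => f (term e) * (f (lab e))⁻¹) L` (`map_wp`). Let `ρ i ζ = TT Γ (fun v => ζ (h.κ v) * γ v) (h.l i.succ)` for `ζ : Fin (c+2) → Y`.
(1) `ρ i ζ` depends only on `ζ k`, `k ≤ i.succ.succ` (`d.low`).
(2) For given `ζ k`, `k < i.succ.succ`, there is exactly one value of `ζ i.succ.succ` with `ρ i ζ = 1`: by `d.one` the list `d.l i` is `L₁ ++ s :: L₂` where `d.κ (term s.1) = i.succ.succ` and `d.κ (term s'.1) < i.succ.succ` for the steps `s'` of `L₁`, `L₂`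
    (`List.count` of a mapped list; `d.low`), and all `d.κ (lab _) < i.succ.succ`; so `ρ i ζ = α * (y * t)^(± 1) * β` with `y = ζ i.succ.succ`, `t = γ (term s.1) * (ζ (κ (lab s.1)) * γ (lab s.1))⁻¹` and `α`, `β`, `t` independent of `y`; the only solution is
    `y = α⁻¹ * β⁻¹ * t⁻¹` resp. `y = β * α * t⁻¹`.
(3) Recursion: for every `m ≤ c` there is a `ζ` with `ζ 0 = u false`, `ζ 1 = u true`, `ρ i ζ = 1` for `i < m`, and two such `ζ` agree on all `k ≤ m + 1` (induction on `m`; for the step change the value at `m + 2` by `Function.update`, (1), (2)). `m = c` is the claim.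
-/

set_option autoImplicit false

open scoped Classical

namespace Pool.Agent.LThin

open Pool.Agent.LOTI Pool.Agent.LTree

variable {V E : Type} [Fintype V] [Fintype E]

omit [Fintype E] in
private theorem telim_wp_congr {X : Type} [Group X] {u u' : E → X} {l : List (E × Bool)}
    (h : ∀ s ∈ l, u s.1 = u' s.1) : wp u l = wp u' l := by
  unfold wp
  congr 1
  apply List.map_congr_left
  intro s hs
  rw [h s hs]

private noncomputable def telimU (Γ : LOT V E) {J Y : Type} [Group Y] (κ : V → J) (γ : V → Y) (ζ : J → Y) (e : E) : Y :=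
  (ζ (κ (Γ.term e)) * γ (Γ.term e)) * (ζ (κ (Γ.lab e)) * γ (Γ.lab e))⁻¹

private theorem telim_TT (Γ : LOT V E) {J Y : Type} [Group Y] (κ : V → J) (γ : V → Y) (ζ : J → Y)
    (L : List (E × Bool)) :
    TT Γ (fun v => ζ (κ v) * γ v) (wp FreeGroup.of L) = wp (telimU Γ κ γ ζ) L := by
  rw [map_wp]
  apply telim_wp_congr
  intro s _
  rw [TT, FreeGroup.lift_apply_of]
  rfl

private theorem telim_solve (Γ : LOT V E) {J Y : Type} [DecidableEq J] [Group Y] (κ : V → J) (γ : V → Y) (ζ : J → Y) (m : J)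
    (L : List (E × Bool)) (hlab : ∀ s ∈ L, κ (Γ.lab s.1) ≠ m)
    (hone : (L.map fun s => κ (Γ.term s.1)).count m = 1) :
    ∃! y : Y, wp (telimU Γ κ γ (Function.update ζ m y)) L = 1 := by
  have hmem : m ∈ L.map fun s => κ (Γ.term s.1) := by
    apply List.count_pos_iff.1
    rw [hone]
    exact one_pos
  rw [List.mem_map] at hmem
  obtain ⟨s, hs, hsm⟩ := hmem
  obtain ⟨L₁, L₂, rfl⟩ := List.append_of_mem hs
  rw [List.map_append, List.map_cons, List.count_append, hsm, List.count_cons_self] at hone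
  have h1 : (L₁.map fun s => κ (Γ.term s.1)).count m = 0 := by omega
  have h2 : (L₂.map fun s => κ (Γ.term s.1)).count m = 0 := by omega
  have k1 : ∀ y, wp (telimU Γ κ γ (Function.update ζ m y)) L₁ = wp (telimU Γ κ γ ζ) L₁ := by
    intro y
    apply telim_wp_congr
    intro s' hs'
    unfold telimU
    have a1 : κ (Γ.term s'.1) ≠ m := by
      intro h
      exact (List.count_eq_zero.1 h1) (List.mem_map.2 ⟨s', hs', h⟩)
    have a2 : κ (Γ.lab s'.1) ≠ m := hlab s' (List.mem_append_left _ hs')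
    rw [Function.update_of_ne a1, Function.update_of_ne a2]
  have k2 : ∀ y, wp (telimU Γ κ γ (Function.update ζ m y)) L₂ = wp (telimU Γ κ γ ζ) L₂ := by
    intro y
    apply telim_wp_congr
    intro s' hs'
    unfold telimU
    have a1 : κ (Γ.term s'.1) ≠ m := by
      intro h
      exact (List.count_eq_zero.1 h2) (List.mem_map.2 ⟨s', hs', h⟩)
    have a2 : κ (Γ.lab s'.1) ≠ m := hlab s' (List.mem_append_right _ (List.mem_cons_of_mem _ hs'))
    rw [Function.update_of_ne a1, Function.update_of_ne a2]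
  set α := wp (telimU Γ κ γ ζ) L₁ with hα
  set β := wp (telimU Γ κ γ ζ) L₂ with hβ
  set τ := γ (Γ.term s.1) * (ζ (κ (Γ.lab s.1)) * γ (Γ.lab s.1))⁻¹ with hτ
  have k3 : ∀ y, telimU Γ κ γ (Function.update ζ m y) s.1 = y * τ := by
    intro y
    unfold telimU
    have a2 : κ (Γ.lab s.1) ≠ m := hlab s hs
    rw [hsm, Function.update_self, Function.update_of_ne a2, hτ, mul_assoc]
  have key : ∀ y, wp (telimU Γ κ γ (Function.update ζ m y)) (L₁ ++ s :: L₂) =
      α * ((if s.2 then y * τ else (y * τ)⁻¹) * β) := by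
    intro y
    rw [wp_append, wp_cons, k1, k2, k3]
  by_cases hb : s.2 = true
  · refine ⟨α⁻¹ * β⁻¹ * τ⁻¹, ?_, ?_⟩
    · show wp _ _ = 1
      rw [key, if_pos hb]
      group
    · intro y hy
      have hy' : wp (telimU Γ κ γ (Function.update ζ m y)) (L₁ ++ s :: L₂) = 1 := hy
      rw [key, if_pos hb] at hy'
      have : y = α⁻¹ * (α * ((y * τ) * β)) * β⁻¹ * τ⁻¹ := by group
      rw [hy', mul_one] at this
      exact this
  · refine ⟨β * α * τ⁻¹, ?_, ?_⟩
    · show wp _ _ = 1
      rw [key, if_neg hb]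
      group
    · intro y hy
      have hy' : wp (telimU Γ κ γ (Function.update ζ m y)) (L₁ ++ s :: L₂) = 1 := hy
      rw [key, if_neg hb] at hy'
      have : y = β * (α * ((y * τ)⁻¹ * β))⁻¹ * α * τ⁻¹ := by group
      rw [hy', inv_one, mul_one] at this
      exact this

theorem thin_elim {Γ : LOT V E} {c : ℕ} (d : ThinData Γ c)
    (h : GPt Γ (Fin (c + 2)) (Fin (c + 1))) (h1 : h.κ = d.κ)
    (h2 : ∀ i : Fin c, h.l i.succ = wp FreeGroup.of (d.l i)) : Elim h := by
  intro Y _ γ u
  rw [h1]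
  -- reformulation
  have href : ∀ (ζ : Fin (c + 2) → Y) (i : Fin c),
      TT Γ (fun v => ζ (d.κ v) * γ v) (h.l i.succ) = wp (telimU Γ d.κ γ ζ) (d.l i) := by
    intro ζ i
    rw [h2, telim_TT]
  simp only [href]
  -- dependence
  have hdep : ∀ (ζ ζ' : Fin (c + 2) → Y) (i : Fin c), (∀ k, k ≤ i.succ.succ → ζ k = ζ' k) →
      wp (telimU Γ d.κ γ ζ) (d.l i) = wp (telimU Γ d.κ γ ζ') (d.l i) := by
    intro ζ ζ' i hk
    apply telim_wp_congr
    intro s hs
    obtain ⟨a1, a2⟩ := d.low i s hs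
    unfold telimU
    rw [hk _ a1.le, hk _ a2]
  have hsolve : ∀ (ζ : Fin (c + 2) → Y) (i : Fin c),
      ∃! y : Y, wp (telimU Γ d.κ γ (Function.update ζ i.succ.succ y)) (d.l i) = 1 := by
    intro ζ i
    exact telim_solve Γ d.κ γ ζ i.succ.succ (d.l i) (fun s hs => (d.low i s hs).1.ne) (d.one i)
  have hex : ∀ m, m ≤ c → ∃ ζ : Fin (c + 2) → Y, ζ 0 = u false ∧ ζ 1 = u true ∧
      ∀ i : Fin c, i.val < m → wp (telimU Γ d.κ γ ζ) (d.l i) = 1 := by
    intro m
    induction m with
    | zero =>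
      intro _
      refine ⟨fun k => if k = 0 then u false else u true, by simp, by simp, ?_⟩
      intro i hi
      omega
    | succ m ih =>
      intro hm
      obtain ⟨ζ, z0, z1, hζ⟩ := ih (by omega)
      obtain ⟨y, hy, -⟩ := hsolve ζ ⟨m, by omega⟩
      refine ⟨Function.update ζ (Fin.succ (Fin.succ ⟨m, by omega⟩)) y, ?_, ?_, ?_⟩
      · rw [Function.update_of_ne, z0]
        intro h0
        have := congrArg Fin.val h0
        simp at this
      · rw [Function.update_of_ne, z1]
        intro h0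
        have := congrArg Fin.val h0
        simp at this
      · intro i hi
        rcases Nat.lt_succ_iff_lt_or_eq.1 hi with hlt | heq
        · rw [← hζ i hlt]
          apply hdep
          intro k hk
          rw [Function.update_of_ne]
          intro h0
          rw [h0, Fin.le_def] at hk
          simp at hk
          omega
        · have : i = ⟨m, by omega⟩ := Fin.ext heq
          rw [this]
          exact hy
  have huniq : ∀ m, m ≤ c → ∀ ζ ζ' : Fin (c + 2) → Y,
      (ζ 0 = u false ∧ ζ 1 = u true ∧ ∀ i : Fin c, i.val < m → wp (telimU Γ d.κ γ ζ) (d.l i) = 1) →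
      (ζ' 0 = u false ∧ ζ' 1 = u true ∧ ∀ i : Fin c, i.val < m → wp (telimU Γ d.κ γ ζ') (d.l i) = 1) →
      ∀ k : Fin (c + 2), k.val ≤ m + 1 → ζ k = ζ' k := by
    intro m
    induction m with
    | zero =>
      rintro _ ζ ζ' ⟨a0, a1, -⟩ ⟨b0, b1, -⟩ k hk
      rcases Nat.lt_or_ge k.val 1 with h0 | h0
      · have : k = 0 := Fin.ext (by rw [Fin.val_zero]; omega)
        rw [this, a0, b0]
      · have : k = 1 := Fin.ext (by rw [Fin.val_one]; omega)
        rw [this, a1, b1]
    | succ m ih =>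
      rintro hm ζ ζ' ⟨a0, a1, a2⟩ ⟨b0, b1, b2⟩ k hk
      have hag := ih (by omega) ζ ζ' ⟨a0, a1, fun i hi => a2 i (by omega)⟩
        ⟨b0, b1, fun i hi => b2 i (by omega)⟩
      rcases Nat.lt_or_ge k.val (m + 2) with hlt | hge
      · exact hag k (by omega)
      · have hkm : k = Fin.succ (Fin.succ (⟨m, by omega⟩ : Fin c)) := Fin.ext (by simp; omega)
        obtain ⟨y, -, hy⟩ := hsolve ζ ⟨m, by omega⟩
        rw [hkm]
        have e1 : ζ (Fin.succ (Fin.succ (⟨m, by omega⟩ : Fin c))) = y := by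
          apply hy
          show wp _ _ = 1
          rw [Function.update_eq_self]
          exact a2 ⟨m, by omega⟩ (by simp)
        have e2 : ζ' (Fin.succ (Fin.succ (⟨m, by omega⟩ : Fin c))) = y := by
          apply hy
          show wp _ _ = 1
          rw [← b2 ⟨m, by omega⟩ (by simp)]
          apply hdep
          intro k' hk'
          by_cases hk2 : k' = Fin.succ (Fin.succ (⟨m, by omega⟩ : Fin c))
          · rw [hk2, Function.update_self]
          · rw [Function.update_of_ne hk2]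
            apply hag
            have h3 : k'.val ≠ m + 2 := fun h => hk2 (Fin.ext (by simpa using h))
            rw [Fin.le_def] at hk'
            simp at hk'
            omega
        rw [e1, e2]
  obtain ⟨ζ, z0, z1, hζ⟩ := hex c le_rfl
  refine ⟨ζ, ⟨z0, z1, fun i => hζ i i.2⟩, ?_⟩
  rintro ζ' ⟨w0, w1, hw⟩
  funext k
  exact huniq c le_rfl ζ' ζ ⟨w0, w1, fun i _ => hw i⟩ ⟨z0, z1, fun i _ => hζ i i.2⟩ k (by omega)

end Pool.Agent.LThin
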