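import Pool.Agent.Lib.LThin.PSplit
import Pool.Agent.Lib.LThin.IndL

/-!
# Independent relators: the relator of the last level is not elliptic

PROOF. (1) Since the vectors `expv h i : Fin (c+2) → ℚ` are linearly independent, there is `F : Fin (c+2) → ℚ` with `∑ k, F k * expv h 0 k = 1` and `∑ k, F k * expv h i.succ k = 0` for all `i` (a linear functional on `Fin (c+2) → ℚ` with the given values on a
linearly independent family, e.g. `LinearIndependent.extend`/`Basis.constr` or `LinearMap.exists_leftInverse_of_injective` for `Finsupp.linearCombination`; every linear functional is `x ↦ ∑ k, F k * x k`).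
(2) `φ₀ : XG Γ (n+1) →* Multiplicative ℚ`, `xg d.castSucc v ↦ 1`, `xg (Fin.last (n+1)) v ↦ ofAdd (F (h.κ v))` (`xg_univ`, `Fin.lastCases`, `h.hκ`). It kills `jj p` for all `p` (`xg_ext`), so `B.W (n+1) = jj '' B.W n`, and `φ₀ (rJ h (n+1) i) = ofAdd (∑ e, cyc (h.l i) e *
(F (h.κ (term e)) - F (h.κ (lab e)))) = ofAdd (∑ k, F k * expv h i k)` (`map_TT`, `sum_TT`; `F (h.κ v) = ∑ k, F k * (if h.κ v = k then 1 else 0)`, `Finset.sum_comm`). So it factors through `φ : PQ (Etop h) B (n+1) →* Multiplicative ℚ` (`qQ_lift`), `φ (jQ p) = 1`, and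
`φ (q (rJ h (n+1) 0)) = ofAdd 1`.
(3) `bs (jQ (Etop h) B n) _ S` (module LTree/BS, `S` from `psplit`) is a tree `T` with `T.Has ⊥` and `μ : T.V → ℚ`, `μ (g • v) = μ v + (φ g).toAdd`. If `g = q (rJ h (n+1) 0)` fixes `v` then `(φ g).toAdd = 0`, contradiction.
-/

set_option autoImplicit false

open scoped Classical

namespace Pool.Agent.LThin

open Pool.Agent.LOTI Pool.Agent.LTree

variable {V E : Type} [Fintype V] [Fintype E]

private theorem topA_fun {c : ℕ} (x : Fin (c + 1) → Fin (c + 2) → ℚ)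
    (hx : LinearIndependent ℚ x) :
    ∃ F : Fin (c + 2) → ℚ, ∑ k, F k * x 0 k = 1 ∧ ∀ i : Fin c, ∑ k, F k * x i.succ k = 0 := by
  have hinj : LinearMap.ker (Fintype.linearCombination ℚ x) = ⊥ :=
    LinearMap.ker_eq_bot.2 hx.fintypeLinearCombination_injective
  obtain ⟨g, hg⟩ := LinearMap.exists_leftInverse_of_injective _ hinj
  have h1 : ∀ i, g (x i) = Pi.single i 1 := by
    intro i
    have h2 := LinearMap.congr_fun hg (Pi.single i 1)
    rw [LinearMap.comp_apply, Fintype.linearCombination_apply_single, one_smul] at h2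
    exact h2
  have h2 : ∀ y : Fin (c + 2) → ℚ, ∑ k, g (Pi.single k 1) 0 * y k = g y 0 := by
    intro y
    conv_rhs => rw [LinearMap.pi_apply_eq_sum_univ g y]
    rw [Finset.sum_apply]
    refine Finset.sum_congr rfl fun k _ => ?_
    have h3 : (Pi.single k 1 : Fin (c + 2) → ℚ) = fun j => if k = j then 1 else 0 := by
      funext j
      simp [Pi.single_apply, eq_comm]
    rw [Pi.smul_apply, smul_eq_mul, mul_comm, h3]
  refine ⟨fun k => g (Pi.single k 1) 0, ?_, fun i => ?_⟩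
  · rw [h2, h1, Pi.single_eq_same]
  · rw [h2, h1, Pi.single_eq_of_ne (Fin.succ_ne_zero i).symm]

private theorem topA_expv {Γ : LOT V E} {c : ℕ} (h : GPt Γ (Fin (c + 2)) (Fin (c + 1)))
    (F : Fin (c + 2) → ℚ) (i : Fin (c + 1)) :
    ∑ e, cyc (h.l i) e * (F (h.κ (Γ.term e)) - F (h.κ (Γ.lab e))) = ∑ k, F k * expv h i k := by
  unfold expv
  simp only [Finset.mul_sum]
  rw [Finset.sum_comm]
  refine Finset.sum_congr rfl fun e _ => ?_
  have h1 : cyc (h.l i) e * (F (h.κ (Γ.term e)) - F (h.κ (Γ.lab e))) =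
      ∑ k, cyc (h.l i) e * ((if h.κ (Γ.term e) = k then F k else 0) -
        (if h.κ (Γ.lab e) = k then F k else 0)) := by
    rw [← Finset.mul_sum, Finset.sum_sub_distrib, Finset.sum_ite_eq Finset.univ,
      Finset.sum_ite_eq Finset.univ, if_pos (Finset.mem_univ _), if_pos (Finset.mem_univ _)]
  rw [h1]
  refine Finset.sum_congr rfl fun k _ => ?_
  by_cases h2 : h.κ (Γ.term e) = k <;> by_cases h3 : h.κ (Γ.lab e) = k <;>
    simp only [if_pos, h2, h3, if_false] <;> ring

theorem topA {Γ : LOT V E} {c : ℕ} (h : GPt Γ (Fin (c + 2)) (Fin (c + 1))) (he : Elim h)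
    (hind : LinearIndependent ℚ fun i => expv h i) (B : Bot Γ) (n : ℕ) :
    ¬ AllEll (⊥ : Subgroup (PQ (Etop h) B (n + 1)))
      (qQ (Etop h) B (n + 1) (rJ h (n + 1) 0)) := by
  intro hell
  obtain ⟨F, hF0, hF1⟩ := topA_fun _ hind
  obtain ⟨φ₀, hφ₀⟩ := xg_univ Γ (n + 1) (Y := Multiplicative ℚ)
    (fun d v => if d = Fin.last (n + 1) then Multiplicative.ofAdd (F (h.κ v)) else 1) (by
      intro e d
      have h1 : d.castSucc ≠ Fin.last (n + 1) := (Fin.castSucc_lt_last d).ne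
      simp only [if_neg h1, mul_one]
      split_ifs
      · rw [h.hκ]
      · rfl)
  have hjj : ∀ p, φ₀ (jj Γ n p) = 1 := by
    intro p
    have h1 := xg_ext Γ n (F := φ₀.comp (jj Γ n)) (F' := (1 : XG Γ n →* Multiplicative ℚ))
      (fun d v => by
        rw [MonoidHom.comp_apply, jj_xg, hφ₀, if_neg (Fin.castSucc_lt_last d).ne,
          MonoidHom.one_apply]) p
    exact h1
  have hr : ∀ i, (φ₀ (rJ h (n + 1) i)).toAdd = ∑ k, F k * expv h i k := by
    intro i
    unfold rJ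
    rw [map_TT]
    have h1 : (fun v => φ₀ (xg Γ (n + 1) (Fin.last (n + 1)) v)) =
        fun v => Multiplicative.ofAdd ((fun v => F (h.κ v)) v) := by
      funext v
      rw [hφ₀, if_pos rfl]
    rw [h1, sum_TT]
    exact topA_expv h F i
  obtain ⟨φ, hφ⟩ := qQ_lift (Etop h) B (n + 1) φ₀
    (by
      rintro w ⟨i, rfl⟩
      have h1 := hr i.succ
      rw [hF1] at h1
      exact h1)
    (by
      intro w hw
      rw [← B.up n] at hw
      obtain ⟨w', _, rfl⟩ := hw
      exact hjj w')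
  obtain ⟨S⟩ := psplit h he B n
  obtain ⟨T, hT, _, _, hμ⟩ := bs (jQ (Etop h) B n) (qQ (Etop h) B n (rJ h n 0)) S
  obtain ⟨μ, hμ⟩ := hμ ℚ (fun g => (φ g).toAdd)
    (by
      intro g g'
      show (φ (g * g')).toAdd = (φ g).toAdd + (φ g').toAdd
      rw [map_mul, toAdd_mul])
    (by
      intro p
      obtain ⟨p', rfl⟩ := qQ_surj (Etop h) B n p
      show (φ (jQ (Etop h) B n (qQ (Etop h) B n p'))).toAdd = 0
      rw [jQ_q, hφ, hjj, toAdd_one])
  obtain ⟨v, hv⟩ := hell T hT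
  have h1 : μ (qQ (Etop h) B (n + 1) (rJ h (n + 1) 0) • v) =
      μ v + (φ (qQ (Etop h) B (n + 1) (rJ h (n + 1) 0))).toAdd :=
    hμ (qQ (Etop h) B (n + 1) (rJ h (n + 1) 0)) v
  rw [hv, hφ, hr, hF0] at h1
  linarith

end Pool.Agent.LThin
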