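import Pool.Agent.Lib.LThin.QBas
import Pool.Agent.Lib.LThin.PSplit
import Pool.Agent.Lib.LThin.BSJ
import Pool.Agent.Lib.LThin.RevQ
import Pool.Agent.Lib.LThin.HatQ
import Pool.Agent.Lib.LThin.StepT
import Pool.Agent.Lib.LThin.EmbF
import Pool.Agent.Lib.LThin.BaseB
import Pool.Agent.Lib.LThin.HowJ
import Pool.Agent.Lib.LThin.TopA
import Pool.Agent.Lib.LThin.GComb
import Pool.Agent.Lib.LThin.TComb
import Pool.Agent.Lib.LThin.TElim

/-!
# LOT groups of thin labelled oriented trees are locally indicable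

(helper62, with helper18's remark on defects)
-/

set_option autoImplicit false

open scoped Classical

namespace Pool.Agent.LThin

open Pool.Agent.LOTI Pool.Agent.LTree

variable {V E : Type} [Fintype V] [Fintype E]

/-- the relator of the last level is not a proper power -/
private theorem npow_r {Γ : LOT V E} {c : ℕ} (h : GPt Γ (Fin (c + 2)) (Fin (c + 1)))
    (he : Elim h) (B : Bot Γ) (n : ℕ) : NPow (qQ (Etop h) B n (rJ h n 0)) := by
  have := qq_fg (Etop h) B n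
  exact npow_pencil (jQ (Etop h) B n) (sQ (Etop h) B n) _ (psplit h he B n).some
    (qQ (Etop h) B (n + 1) (xg Γ (n + 1) 0 (h.b 0)))
    (fun k _ φ hφ hp h0 => qpencil (Etop h) B n (h.b 0) k φ hφ hp h0)

/-- the relator of the last level is not trivial -/
private theorem ne_r {Γ : LOT V E} {c : ℕ} (h : GPt Γ (Fin (c + 2)) (Fin (c + 1)))
    (he : Elim h) (B : Bot Γ) (n : ℕ) : qQ (Etop h) B n (rJ h n 0) ≠ 1 := by
  intro h1
  exact npow_r h he B n 1 2 le_rfl (by rw [h1, one_pow])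

/-- the relator of the first level group is not elliptic if the group is free -/
private theorem start {P J : Type} [Group P] (θ : P →* FreeGroup J)
    (hθ : Function.Injective θ) (x : P) (hx : x ≠ 1) : ¬ AllEll (⊥ : Subgroup P) x := by
  intro h
  obtain ⟨T, hT, h1⟩ := emb_tree θ hθ
  obtain ⟨v, hv⟩ := h T hT
  exact hx (h1 v x hv)

/-- thin and independent, same side -/
private theorem caseA (Γ : LOT V E) {c : ℕ} (d : ThinData Γ c) (hi : Indep Γ) : LI Γ.Grp := by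
  obtain ⟨h, hκ, hl, hlin⟩ := thin_gpt d
  have he := thin_elim d h hκ hl
  have hind := indep_expv h hlin hi
  obtain ⟨J, θ, hθ⟩ := baseA h he
  refine Γ.LI_of_hat (hat_of_levelsQ (Etop h) (Bot.nil Γ) fun n => ?_)
  induction n with
  | zero => exact emb_LI θ hθ
  | succ n ih =>
    refine stepA ih (jQ (Etop h) (Bot.nil Γ) n) _ (psplit h he (Bot.nil Γ) n).some
      (npow_r h he _ n) ?_
    cases n with
    | zero => exact start θ hθ _ (ne_r h he _ 0)
    | succ m => exact topA h he hind (Bot.nil Γ) m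

/-- both sides thin -/
private theorem caseC (Γ : LOT V E) {c c' : ℕ} (d : ThinData Γ c) (d' : ThinData Γ.rev c') :
    LI Γ.Grp := by
  obtain ⟨h, hκ, hl, -⟩ := thin_gpt d
  have he := thin_elim d h hκ hl
  obtain ⟨h', hκ', hl', -⟩ := thin_gpt d'
  have he' := thin_elim d' h' hκ' hl'
  obtain ⟨J, θ, hθ⟩ := baseB h he h' he'
  have hA : ∀ n, (Etop h').W n = nu Γ n '' (Ebot h').W n := by
    intro n
    show Set.range _ = _ '' Set.range _
    rw [← Set.range_comp]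
    congr 1
    funext i
    exact (nu_mu Γ n _).symm
  obtain ⟨Φ, hΦ1, hΦ2, hΦ3⟩ := revQ (A := Etop h) (B := Ebot h') (A' := Etop h')
    (B' := (Etop h).rev) hA (fun n => rfl)
  have hs : ∀ n, Nonempty (Split (sQ (Etop h) (Ebot h') n)
      (qQ (Etop h) (Ebot h') n (mu Γ n (rJ h' n 0)))) := by
    intro n
    refine split_iso _ (jQ (Etop h') (Etop h).rev n) (Φ n) (Φ (n + 1)) (hΦ3 n) _ _ ?_
      (psplit h' he' (Etop h).rev n).some
    rw [hΦ1, nu_mu]
  have key : ∀ n, LI (PQ (Etop h) (Ebot h') n) ∧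
      ¬ (AllEll (⊥ : Subgroup (PQ (Etop h) (Ebot h') n)) (qQ (Etop h) (Ebot h') n (rJ h n 0)) ∧
        AllEll (⊥ : Subgroup (PQ (Etop h) (Ebot h') n))
          (qQ (Etop h) (Ebot h') n (mu Γ n (rJ h' n 0)))) := by
    intro n
    induction n with
    | zero => exact ⟨emb_LI θ hθ, fun hh => start θ hθ _ (ne_r h he _ 0) hh.1⟩
    | succ n ih =>
      have := qq_fg (Etop h) (Ebot h') n
      have h1 := step ih.1 (jQ (Etop h) (Ebot h') n) (sQ (Etop h) (Ebot h') n)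
        (qQ (Etop h) (Ebot h') n (rJ h n 0)) (qQ (Etop h) (Ebot h') n (mu Γ n (rJ h' n 0)))
        (psplit h he (Ebot h') n).some (hs n).some
        (qQ (Etop h) (Ebot h') (n + 1) (xg Γ (n + 1) 0 (h.b 0)))
        (fun k _ φ hφ hp h0 => qpencil (Etop h) (Ebot h') n (h.b 0) k φ hφ hp h0) ih.2
      rw [sQ_q, ss_rJ, jQ_q] at h1
      have h2 : jj Γ n (mu Γ n (rJ h' n 0)) = mu Γ (n + 1) (rJ h' (n + 1) 0) := by
        have h3 := nu_jj Γ n (mu Γ n (rJ h' n 0))
        rw [nu_mu, ss_rJ] at h3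
        rw [← h3, mu_nu]
      rw [h2] at h1
      exact h1
  exact Γ.LI_of_hat (hat_of_levelsQ (Etop h) (Ebot h') fun n => (key n).1)

/-- `Γ` thin, `Γ.rev` independent -/
private theorem caseB (Γ : LOT V E) {c : ℕ} (d : ThinData Γ c) (hi : Indep Γ.rev) :
    LI Γ.Grp := by
  obtain ⟨h, hκ, hl, -⟩ := thin_gpt d
  have he := thin_elim d h hκ hl
  obtain ⟨K, ι, _, _, h', hlin'⟩ := exists_gpt Γ.rev
  have hind := indep_expv h' hlin' hi
  obtain ⟨J, θ, hθ⟩ := baseA h he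
  obtain ⟨Φ, hΦ1, hΦ2, hΦ3⟩ := revQ (A := Etop h) (B := Bot.nil Γ) (A' := Top.nil Γ.rev)
    (B' := (Etop h).rev) (fun n => (Set.image_empty _).symm) (fun n => rfl)
  refine Γ.LI_of_hat (hat_of_levelsQ (Etop h) (Bot.nil Γ) fun n => ?_)
  induction n with
  | zero => exact emb_LI θ hθ
  | succ n ih =>
    have := qq_fg (Etop h) (Bot.nil Γ) n
    refine stepT ih (jQ (Etop h) (Bot.nil Γ) n) (sQ (Etop h) (Bot.nil Γ) n) _
      (psplit h he (Bot.nil Γ) n).some (qQ (Etop h) (Bot.nil Γ) (n + 1) (xg Γ (n + 1) 0 (h.b 0)))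
      (fun k _ φ hφ hp h0 => qpencil (Etop h) (Bot.nil Γ) n (h.b 0) k φ hφ hp h0) ?_
    cases n with
    | zero =>
      obtain ⟨T, hT, h1⟩ := emb_tree θ hθ
      exact dd_le_of_tree ℚ T hT _ fun v g hg _ => h1 v g hg
    | succ m =>
      obtain ⟨S, -⟩ := gsplit h' (Etop h).rev m
      obtain ⟨S'⟩ := splitJ_iso (sQ (Etop h) (Bot.nil Γ) m) (jQ (Top.nil Γ.rev) (Etop h).rev m)
        (Φ m) (Φ (m + 1)) (hΦ3 m) _ S
      obtain ⟨T, hT, h1⟩ := bsJ _ _ S'
      refine dd_le_of_tree ℚ T hT _ fun v a ha hker => ?_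
      obtain ⟨g, p, rfl⟩ := h1 v a ha
      have h2 : sQ (Etop h) (Bot.nil Γ) (m + 1) (sQ (Etop h) (Bot.nil Γ) m p) = 1 := by
        have h3 : sQ (Etop h) (Bot.nil Γ) (m + 1)
            (g * sQ (Etop h) (Bot.nil Γ) m p * g⁻¹) = 1 := hker
        rw [map_mul, map_mul, map_inv] at h3
        exact conj_eq_one_iff.1 h3
      have hLI : LI (PQ (Top.nil Γ.rev) (Etop h).rev (m + 1)) :=
        LI.of_injective (Φ (m + 1)).symm.toMonoidHom (Φ (m + 1)).symm.injective ih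
      have h4 := howJ h' hind (Etop h).rev m hLI (Φ m p) (by
        rw [← hΦ3, ← hΦ3, h2, map_one])
      rw [← hΦ3] at h4
      have h5 : sQ (Etop h) (Bot.nil Γ) m p = 1 := (Φ (m + 1)).map_eq_one_iff.1 h4
      rw [h5, mul_one, mul_inv_cancel]

/-- the main theorem -/
theorem thin_LI (Γ : LOT V E) (h : Thin Γ ∨ Thin Γ.rev)
    (h' : (Thin Γ ∧ Thin Γ.rev) ∨ Indep Γ ∨ Indep Γ.rev) : LI Γ.Grp := by
  by_cases hc : ∀ v w, Relation.EqvGen Γ.IAdj v w
  · exact conn_LI Γ hc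
  by_cases hc' : ∀ v w, Relation.EqvGen Γ.rev.IAdj v w
  · exact Γ.LI_of_rev (conn_LI Γ.rev hc')
  have e1 : Thin Γ → ∃ c, Nonempty (ThinData Γ c) := fun h => h.resolve_left hc
  have e2 : Thin Γ.rev → ∃ c, Nonempty (ThinData Γ.rev c) := fun h => h.resolve_left hc'
  rcases h' with ⟨h1, h2⟩ | h1
  · obtain ⟨c, ⟨d⟩⟩ := e1 h1
    obtain ⟨c', ⟨d'⟩⟩ := e2 h2
    exact caseC Γ d d'
  rcases h with h | h
  · obtain ⟨c, ⟨d⟩⟩ := e1 h
    rcases h1 with h1 | h1
    · exact caseA Γ d h1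
    · exact caseB Γ d h1
  · obtain ⟨c, ⟨d⟩⟩ := e2 h
    refine Γ.LI_of_rev ?_
    rcases h1 with h1 | h1
    · exact caseB Γ.rev d h1
    · exact caseA Γ.rev d h1

end Pool.Agent.LThin
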