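import Pool.Agent.Lib.LThin.GDefs

/-!
# The quotients of the level groups: finite generation, pencil condition

PROOFS. `qq_fg`: `XG Γ n` is finitely generated (`xg_fg`), `qQ` is onto (`Group.fg_of_surjective`, or `QuotientGroup` instance). `qpencil`: `φ ∘ qQ (n+1) : XG Γ (n+1) → k` is additive and satisfies the hypotheses of `LTree.xpencil`
(`jQ_q`, `sQ_q`), so it is `0`; `qQ` is onto.
-/

set_option autoImplicit false

open scoped Classical

namespace Pool.Agent.LThin

open Pool.Agent.LOTI Pool.Agent.LTree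

variable {V E : Type} [Fintype V] [Fintype E]

theorem qq_fg {Γ : LOT V E} (A : Top Γ) (B : Bot Γ) (n : ℕ) : Group.FG (PQ A B n) := by
  haveI := xg_fg Γ n
  exact Group.fg_of_surjective (f := qQ A B n) (qQ_surj A B n)

theorem qpencil {Γ : LOT V E} (A : Top Γ) (B : Bot Γ) (n : ℕ) (v₀ : V) (k : Type) [Field k]
    (φ : PQ A B (n + 1) → k) (hφ : φ ∈ HH k (PQ A B (n + 1)))
    (hp : ∀ p, φ (jQ A B n p) = φ (sQ A B n p))
    (h0 : φ (qQ A B (n + 1) (xg Γ (n + 1) 0 v₀)) = 0) : φ = 0 := by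
  have h1 : (fun p => φ (qQ A B (n + 1) p)) = 0 := by
    refine xpencil Γ n v₀ k (fun p => φ (qQ A B (n + 1) p)) ?_ ?_ h0
    · intro g h
      show φ (qQ A B (n + 1) (g * h)) = φ (qQ A B (n + 1) g) + φ (qQ A B (n + 1) h)
      rw [map_mul]
      exact hφ _ _
    · intro p
      show φ (qQ A B (n + 1) (jj Γ n p)) = φ (qQ A B (n + 1) (ss Γ n p))
      rw [← jQ_q, ← sQ_q]
      exact hp _
  funext x
  obtain ⟨p, rfl⟩ := qQ_surj A B (n + 1) x
  exact congrFun h1 p

end Pool.Agent.LThin
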